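import Mathlib

/-! Perfect matchings of multigraphs given by two maps `a b : E → V` (ends of the edges; loops are
allowed and irrelevant), fractional perfect matchings with odd cut constraints, and existence of a
perfect matching in the support (Tutte's theorem). -/

set_option autoImplicit false
set_option linter.unusedSectionVars false

namespace Pool.Agent.H249R2.PM

variable {V E : Type} [Fintype V] [DecidableEq V] [Fintype E] [DecidableEq E]

/-- the edge `e` (with ends `a e`, `b e`) leaves the vertex set `S` -/
def Cr (a b : E → V) (S : Finset V) (e : E) : Prop := ¬ (a e ∈ S ↔ b e ∈ S)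

instance (a b : E → V) (S : Finset V) : DecidablePred (Cr a b S) := fun e => by
  unfold Cr; infer_instance

/-- total weight of the edges leaving `S` -/
def cut (a b : E → V) (x : E → ℝ) (S : Finset V) : ℝ :=
  ∑ e ∈ Finset.univ.filter (Cr a b S), x e

/-- fractional perfect matchings satisfying the odd cut inequalities -/
structure Fr (a b : E → V) (x : E → ℝ) : Prop where
  nonneg : ∀ e, 0 ≤ x e
  deg : ∀ v, cut a b x {v} = 1
  odd : ∀ S : Finset V, Odd S.card → 1 ≤ cut a b x S

/-- perfect matchings -/
structure IsPM (a b : E → V) (M : Finset E) : Prop where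
  noloop : ∀ e ∈ M, a e ≠ b e
  deg : ∀ v, (M.filter (Cr a b {v})).card = 1

theorem Cr_singleton {a b : E → V} {v : V} {e : E} :
    Cr a b {v} e ↔ ¬ (a e = v ↔ b e = v) := by
  simp [Cr]

theorem Cr_ne {a b : E → V} {S : Finset V} {e : E} (h : Cr a b S e) : a e ≠ b e := by
  intro h'
  apply h
  rw [h']

theorem Cr_compl {a b : E → V} {S : Finset V} {e : E} : Cr a b Sᶜ e ↔ Cr a b S e := by
  simp only [Cr, Finset.mem_compl]
  tauto

theorem cut_compl (a b : E → V) (x : E → ℝ) (S : Finset V) : cut a b x Sᶜ = cut a b x S := by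
  unfold cut
  congr 1
  ext e
  simp [Cr_compl]

theorem cut_eq_ite (a b : E → V) (x : E → ℝ) (S : Finset V) :
    cut a b x S = ∑ e, if Cr a b S e then x e else 0 := by
  unfold cut
  rw [Finset.sum_filter]

/-- the simple graph of the support -/
def supG (a b : E → V) (x : E → ℝ) : SimpleGraph V where
  Adj u v := u ≠ v ∧ ∃ e, 0 < x e ∧ ((a e = u ∧ b e = v) ∨ (a e = v ∧ b e = u))
  symm := ⟨by
    rintro u v ⟨h, e, he, h'⟩
    exact ⟨h.symm, e, he, h'.symm⟩⟩
  loopless := ⟨fun u h => h.1 rfl⟩

open Classical in
theorem no_violator {a b : E → V} {x : E → ℝ} (hx : Fr a b x) (T : Set V) :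
    ¬ (supG a b x).IsTutteViolator T := by
  unfold SimpleGraph.IsTutteViolator
  rw [not_lt]
  set G := supG a b x with hG
  set H := ((⊤ : G.Subgraph).deleteVerts T).coe with hH
  -- the vertex set of a component
  let SC : H.ConnectedComponent → Finset V := fun C => (Subtype.val '' C.supp).toFinset
  have memSC : ∀ C v, v ∈ SC C ↔ ∃ h : v ∈ ((⊤ : G.Subgraph).deleteVerts T).verts,
      (⟨v, h⟩ : ((⊤ : G.Subgraph).deleteVerts T).verts) ∈ C.supp := by
    intro C v
    simp only [SC, Set.mem_toFinset, Set.mem_image]
    constructor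
    · rintro ⟨⟨w, hw⟩, h1, rfl⟩
      exact ⟨hw, h1⟩
    · rintro ⟨h, h1⟩
      exact ⟨⟨v, h⟩, h1, rfl⟩
  have cardSC : ∀ C : H.ConnectedComponent, (SC C).card = C.supp.ncard := by
    intro C
    rw [← Set.ncard_image_of_injective _ Subtype.val_injective, Set.ncard_eq_toFinset_card']
  -- crossing edges of a component lead to T
  have key : ∀ (C : H.ConnectedComponent) (e : E), 0 < x e → Cr a b (SC C) e →
      ∃ v ∈ T, Cr a b {v} e ∧ ((a e ∈ SC C ∧ b e = v) ∨ (b e ∈ SC C ∧ a e = v)) := by
    have base : ∀ (C : H.ConnectedComponent) (e : E) (u w : V), 0 < x e →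
        ((a e = u ∧ b e = w) ∨ (a e = w ∧ b e = u)) → u ∈ SC C → w ∉ SC C → w ∈ T := by
      intro C e u w he huw hu hw
      by_contra hwT
      obtain ⟨hu1, hu2⟩ := (memSC C u).1 hu
      have hne : u ≠ w := by
        rintro rfl
        exact hw hu
      have hadj : G.Adj u w := ⟨hne, e, he, huw⟩
      have hw1 : w ∈ ((⊤ : G.Subgraph).deleteVerts T).verts := by
        simp [hwT]
      have huT : u ∉ T := by
        simp only [SimpleGraph.Subgraph.deleteVerts_verts, SimpleGraph.Subgraph.verts_top] at hu1
        exact hu1.2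
      have hH' : H.Adj ⟨u, hu1⟩ ⟨w, hw1⟩ := by
        simp only [hH, SimpleGraph.Subgraph.coe_adj, SimpleGraph.Subgraph.deleteVerts_adj]
        simp [huT, hwT, hadj]
      apply hw
      rw [memSC]
      refine ⟨hw1, ?_⟩
      rw [SimpleGraph.ConnectedComponent.mem_supp_iff] at hu2 ⊢
      rw [← hu2]
      exact (SimpleGraph.ConnectedComponent.connectedComponentMk_eq_of_adj hH').symm
    intro C e he hcr
    have hne : a e ≠ b e := Cr_ne hcr
    by_cases h1 : a e ∈ SC C
    · have h2 : b e ∉ SC C := by
        intro h2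
        exact hcr ⟨fun _ => h2, fun _ => h1⟩
      refine ⟨b e, base C e (a e) (b e) he (Or.inl ⟨rfl, rfl⟩) h1 h2, ?_, Or.inl ⟨h1, rfl⟩⟩
      rw [Cr_singleton]
      simp [hne]
    · have h2 : b e ∈ SC C := by
        by_contra h2
        exact hcr ⟨fun h => absurd h h1, fun h => absurd h h2⟩
      refine ⟨a e, base C e (b e) (a e) he (Or.inr ⟨rfl, rfl⟩) h2 h1, ?_, Or.inr ⟨h2, rfl⟩⟩
      rw [Cr_singleton]
      simp [hne.symm]
  have notT : ∀ C v, v ∈ SC C → v ∉ T := by
    intro C v hv
    obtain ⟨h1, _⟩ := (memSC C v).1 hv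
    simp only [SimpleGraph.Subgraph.deleteVerts_verts, SimpleGraph.Subgraph.verts_top] at h1
    exact h1.2
  have disj : ∀ C C' v, v ∈ SC C → v ∈ SC C' → C = C' := by
    intro C C' v h h'
    obtain ⟨h1, h2⟩ := (memSC C v).1 h
    obtain ⟨h1', h2'⟩ := (memSC C' v).1 h'
    rw [SimpleGraph.ConnectedComponent.mem_supp_iff] at h2 h2'
    rw [← h2, ← h2']
  -- the counting
  let Cs : Finset H.ConnectedComponent := H.oddComponents.toFinset
  have hCs : H.oddComponents.ncard = Cs.card := by
    rw [Set.ncard_eq_toFinset_card']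
  have hT : T.ncard = T.toFinset.card := by
    rw [Set.ncard_eq_toFinset_card']
  have hreal : ((Cs.card : ℕ) : ℝ) ≤ (T.toFinset.card : ℝ) := by
    calc ((Cs.card : ℕ) : ℝ) = ∑ C ∈ Cs, (1 : ℝ) := by simp
      _ ≤ ∑ C ∈ Cs, cut a b x (SC C) := by
          apply Finset.sum_le_sum
          intro C hC
          apply hx.odd
          rw [cardSC]
          have := Set.mem_toFinset.1 hC
          exact this
      _ = ∑ e, ∑ C ∈ Cs, (if Cr a b (SC C) e then x e else 0) := by
          rw [Finset.sum_comm]
          apply Finset.sum_congr rfl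
          intro C _
          rw [cut_eq_ite]
      _ ≤ ∑ e, ∑ v ∈ T.toFinset, (if Cr a b {v} e then x e else 0) := by
          apply Finset.sum_le_sum
          intro e _
          by_cases hex : ∃ C ∈ Cs, Cr a b (SC C) e ∧ 0 < x e
          · obtain ⟨C, hC, hcr, hxe⟩ := hex
            obtain ⟨v, hvT, hvc, hv⟩ := key C e hxe hcr
            have h1 : ∑ C' ∈ Cs, (if Cr a b (SC C') e then x e else 0) ≤ x e := by
              have : ∑ C' ∈ Cs, (if Cr a b (SC C') e then x e else 0)
                  = ∑ C' ∈ Cs, (if C' = C then x e else 0) := by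
                apply Finset.sum_congr rfl
                intro C' _
                by_cases hCC : C' = C
                · subst hCC
                  rw [if_pos hcr, if_pos rfl]
                · rw [if_neg hCC, if_neg]
                  intro hcr'
                  obtain ⟨v', hvT', _, hv'⟩ := key C' e hxe hcr'
                  rcases hv with ⟨h3, h4⟩ | ⟨h3, h4⟩ <;> rcases hv' with ⟨h5, h6⟩ | ⟨h5, h6⟩
                  · exact hCC (disj _ _ _ h5 h3)
                  · exact notT _ _ h3 (by rw [h6]; exact hvT')
                  · exact notT _ _ h3 (by rw [h6]; exact hvT')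
                  · exact hCC (disj _ _ _ h5 h3)
              rw [this, Finset.sum_ite_eq' Cs C, if_pos hC]
            have h2 : x e ≤ ∑ v ∈ T.toFinset, (if Cr a b {v} e then x e else 0) := by
              have := Finset.single_le_sum (f := fun v => if Cr a b {v} e then x e else 0)
                (s := T.toFinset) (fun w _ => by
                  split_ifs
                  · exact hx.nonneg e
                  · exact le_rfl) (Set.mem_toFinset.2 hvT)
              simpa [hvc] using this
            exact h1.trans h2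
          · have h1 : ∑ C' ∈ Cs, (if Cr a b (SC C') e then x e else 0) = 0 := by
              apply Finset.sum_eq_zero
              intro C' hC'
              by_cases hcr : Cr a b (SC C') e
              · rw [if_pos hcr]
                by_contra hne
                exact hex ⟨C', hC', hcr, lt_of_le_of_ne (hx.nonneg e) (Ne.symm hne)⟩
              · rw [if_neg hcr]
            rw [h1]
            apply Finset.sum_nonneg
            intro w _
            split_ifs
            · exact hx.nonneg e
            · exact le_rfl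
      _ = ∑ v ∈ T.toFinset, cut a b x {v} := by
          rw [Finset.sum_comm]
          apply Finset.sum_congr rfl
          intro v _
          rw [cut_eq_ite]
      _ = (T.toFinset.card : ℝ) := by
          rw [Finset.sum_congr rfl (fun v _ => hx.deg v)]
          simp
  rw [hCs, hT]
  exact_mod_cast hreal

theorem exists_pm {a b : E → V} {x : E → ℝ} (hx : Fr a b x) :
    ∃ M, IsPM a b M ∧ ∀ e ∈ M, 0 < x e := by
  classical
  rcases isEmpty_or_nonempty E with hE | hE
  · refine ⟨∅, ⟨by simp, fun v => ?_⟩, by simp⟩
    exfalso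
    have := hx.deg v
    rw [cut_eq_ite] at this
    simp at this
  obtain ⟨M, hM⟩ := (SimpleGraph.tutte (G := supG a b x)).2 (no_violator hx)
  -- choose an edge for every matched pair
  have hch : ∀ s : Sym2 V, s ∈ M.edgeSet → ∃ e : E, 0 < x e ∧ s(a e, b e) = s := by
    intro s
    induction s using Sym2.ind with
    | _ u v =>
      intro h
      have h1 : (supG a b x).Adj u v := M.adj_sub h
      obtain ⟨hne, e, he, h2⟩ := h1
      refine ⟨e, he, ?_⟩
      rcases h2 with ⟨h3, h4⟩ | ⟨h3, h4⟩
      · rw [h3, h4]
      · rw [h3, h4, Sym2.eq_swap]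
  choose! g hg1 hg2 using hch
  let MS : Finset (Sym2 V) := Finset.univ.filter (fun s => s ∈ M.edgeSet)
  refine ⟨MS.image g, ⟨?_, ?_⟩, ?_⟩
  · intro e he
    obtain ⟨s, hs, rfl⟩ := Finset.mem_image.1 he
    have hs' : s ∈ M.edgeSet := by simpa [MS] using hs
    intro hab
    have h1 := hg2 s hs'
    have h2 : s.IsDiag := by
      rw [← h1, hab]
      exact Sym2.diag_isDiag _
    have h3 : s ∈ (supG a b x).edgeSet := M.edgeSet_subset hs'
    exact (supG a b x).not_isDiag_of_mem_edgeSet h3 h2
  · intro v
    obtain ⟨w, hw, huniq⟩ := hM.1 (hM.2 v)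
    rw [Finset.card_eq_one]
    refine ⟨g s(v, w), ?_⟩
    have hvw : s(v, w) ∈ M.edgeSet := hw
    have hne : v ≠ w := (M.adj_sub hw).ne
    ext e
    simp only [Finset.mem_filter, Finset.mem_image, Finset.mem_singleton]
    constructor
    · rintro ⟨⟨s, hs, rfl⟩, hcr⟩
      have hs' : s ∈ M.edgeSet := by simpa [MS] using hs
      rw [Cr_singleton] at hcr
      have h1 := hg2 s hs'
      have hv : v ∈ s := by
        rw [← h1, Sym2.mem_iff]
        by_contra hcon
        push Not at hcon
        exact hcr ⟨fun h => absurd h.symm hcon.1, fun h => absurd h.symm hcon.2⟩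
      obtain ⟨w', rfl⟩ := hv
      have : w' = w := huniq w' hs'
      rw [this]
    · rintro rfl
      refine ⟨⟨s(v, w), by simpa [MS] using hvw, rfl⟩, ?_⟩
      rw [Cr_singleton]
      have h1 := hg2 _ hvw
      rw [Sym2.eq_iff] at h1
      rcases h1 with ⟨h2, h3⟩ | ⟨h2, h3⟩
      · rw [h2, h3]
        simp [hne.symm]
      · rw [h2, h3]
        simp [hne.symm]
  · intro e he
    obtain ⟨s, hs, rfl⟩ := Finset.mem_image.1 he
    exact hg1 s (by simpa [MS] using hs)

end Pool.Agent.H249R2.PM
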