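import Pool.Agent.H249R2.PM.Main

/-! Translation between perfect matchings of the complete graph on `Fin n × Fin 2`, fixed point free
involutions and permutations. -/

set_option autoImplicit false
set_option linter.unusedSectionVars false

namespace Pool.Agent.H249R2.PM

/-- indicator of a perfect matching is a fractional perfect matching -/
theorem IsPM.fr {V E : Type} [Fintype V] [DecidableEq V] [Fintype E] [DecidableEq E]
    {a b : E → V} {M : Finset E} (hM : IsPM a b M) :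
    Fr a b (fun e => if e ∈ M then (1 : ℝ) else 0) := by
  have hcut : ∀ S, cut a b (fun e => if e ∈ M then (1 : ℝ) else 0) S =
      ((M.filter (Cr a b S)).card : ℝ) := by
    intro S
    unfold cut
    rw [Finset.sum_ite_mem, Finset.sum_const, nsmul_eq_mul, mul_one]
    congr 2
    ext e
    simp [and_comm]
  refine ⟨fun e => ?_, fun v => ?_, fun S hS => ?_⟩
  · split_ifs <;> norm_num
  · rw [hcut, hM.deg, Nat.cast_one]
  · rw [hcut]
    have := ((parity hM S).1 hS).pos
    exact_mod_cast this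

/-- vertices -/
abbrev VV (n : ℕ) := Fin n × Fin 2

/-- an order on the vertices -/
def enc {n : ℕ} (v : VV n) : ℕ := 2 * v.1.val + v.2.val

theorem enc_inj {n : ℕ} {u v : VV n} (h : enc u = enc v) : u = v := by
  unfold enc at h
  have h1 := u.2.isLt
  have h2 := v.2.isLt
  ext
  · omega
  · omega

/-- edges of the complete graph -/
abbrev EE (n : ℕ) := {p : VV n × VV n // enc p.1 < enc p.2}

/-- first end -/
def ea {n : ℕ} (e : EE n) : VV n := e.1.1
/-- second end -/
def eb {n : ℕ} (e : EE n) : VV n := e.1.2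

theorem ea_ne_eb {n : ℕ} (e : EE n) : ea e ≠ eb e := by
  intro h
  have := e.2
  unfold ea eb at h
  rw [h] at this
  exact lt_irrefl _ this

/-- the edge between two distinct vertices -/
def mkE {n : ℕ} (u v : VV n) (h : u ≠ v) : EE n :=
  if h' : enc u < enc v then ⟨(u, v), h'⟩ else
    ⟨(v, u), lt_of_le_of_ne (not_lt.1 h') (fun h'' => h (enc_inj h''.symm))⟩

theorem mkE_ends {n : ℕ} (u v : VV n) (h : u ≠ v) :
    (ea (mkE u v h) = u ∧ eb (mkE u v h) = v) ∨ (ea (mkE u v h) = v ∧ eb (mkE u v h) = u) := by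
  unfold mkE
  split_ifs with h'
  · left; exact ⟨rfl, rfl⟩
  · right; exact ⟨rfl, rfl⟩

theorem ends_unique {n : ℕ} {e e' : EE n} (h : (ea e = ea e' ∧ eb e = eb e') ∨
    (ea e = eb e' ∧ eb e = ea e')) : e = e' := by
  obtain ⟨⟨u, v⟩, huv⟩ := e
  obtain ⟨⟨u', v'⟩, huv'⟩ := e'
  simp only [ea, eb] at h
  simp only at huv huv'
  rcases h with ⟨h1, h2⟩ | ⟨h1, h2⟩
  · subst h1 h2; rfl
  · subst h1 h2
    exact absurd huv (not_lt.2 huv'.le)

theorem comp_EE {n : ℕ} (p q : VV n) (h : p ≠ q) :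
    ∃ e : EE n, (ea e = p ∧ eb e = q) ∨ (ea e = q ∧ eb e = p) :=
  ⟨mkE p q h, mkE_ends p q h⟩

/-- the perfect matching of a fixed point free involution -/
def Mf {n : ℕ} (f : VV n → VV n) : Finset (EE n) := Finset.univ.filter (fun e => f (ea e) = eb e)

theorem Mf_isPM {n : ℕ} {f : VV n → VV n} (hf : ∀ i, f i ≠ i ∧ f (f i) = i) :
    IsPM ea eb (Mf f) := by
  refine ⟨fun e _ => ea_ne_eb e, fun v => ?_⟩
  rw [Finset.card_eq_one]
  refine ⟨mkE v (f v) (hf v).1.symm, ?_⟩
  ext e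
  simp only [Mf, Finset.mem_filter, Finset.mem_univ, true_and, Finset.mem_singleton, Cr_singleton]
  constructor
  · rintro ⟨h1, h2⟩
    apply ends_unique
    by_cases h3 : ea e = v
    · have h4 : eb e = f v := by rw [← h1, h3]
      rcases mkE_ends v (f v) (hf v).1.symm with ⟨h5, h6⟩ | ⟨h5, h6⟩
      · left; rw [h3, h4, h5, h6]; exact ⟨rfl, rfl⟩
      · right; rw [h3, h4, h5, h6]; exact ⟨rfl, rfl⟩
    · have h4 : eb e = v := by tauto
      have h5 : ea e = f v := by rw [← h4, ← h1, (hf _).2]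
      rcases mkE_ends v (f v) (hf v).1.symm with ⟨h6, h7⟩ | ⟨h6, h7⟩
      · right; rw [h4, h5, h6, h7]; exact ⟨rfl, rfl⟩
      · left; rw [h4, h5, h6, h7]; exact ⟨rfl, rfl⟩
  · rintro rfl
    rcases mkE_ends v (f v) (hf v).1.symm with ⟨h6, h7⟩ | ⟨h6, h7⟩
    · rw [h6, h7]
      exact ⟨rfl, by simp [(hf v).1]⟩
    · rw [h6, h7]
      exact ⟨(hf v).2, by simp [(hf v).1]⟩

/-- swapping the two elements of every pair -/
theorem exists_inv {n : ℕ} (u v : VV n) (huv : u ≠ v) :
    ∃ f : VV n → VV n, (∀ i, f i ≠ i ∧ f (f i) = i) ∧ f u = v := by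
  obtain ⟨x, hx⟩ : ∃ x : VV n, x = (u.1, 0) := ⟨_, rfl⟩
  obtain ⟨y, hy⟩ : ∃ y : VV n, y = (u.1, 1) := ⟨_, rfl⟩
  have hxy : y ≠ x := by rw [hx, hy]; simp
  let σ₁ : Equiv.Perm (VV n) := Equiv.swap x u
  have h1 : σ₁ x = u := Equiv.swap_apply_left x u
  have h2 : σ₁ y ≠ u := by
    intro h
    rw [← h1] at h
    exact hxy (σ₁.injective h)
  let σ₂ : Equiv.Perm (VV n) := Equiv.swap (σ₁ y) v
  have h3 : σ₂ u = u := Equiv.swap_apply_of_ne_of_ne h2.symm huv
  have h4 : σ₂ (σ₁ y) = v := Equiv.swap_apply_left _ _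
  let g : VV n → VV n := fun p => (p.1, 1 - p.2)
  have hg : ∀ p, g p ≠ p ∧ g (g p) = p := by
    rintro ⟨i, j⟩
    simp only [g]
    constructor
    · intro h
      rw [Prod.mk.injEq] at h
      have := h.2
      fin_cases j <;> simp at this
    · rw [Prod.mk.injEq]
      refine ⟨rfl, ?_⟩
      fin_cases j <;> simp
  let τ : Equiv.Perm (VV n) := σ₁.trans σ₂
  refine ⟨fun i => τ (g (τ.symm i)), fun i => ⟨?_, ?_⟩, ?_⟩
  · intro h
    replace h : τ (g (τ.symm i)) = i := h
    apply (hg (τ.symm i)).1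
    apply τ.injective
    rw [h, Equiv.apply_symm_apply]
  · dsimp only
    rw [Equiv.symm_apply_apply, (hg _).2, Equiv.apply_symm_apply]
  · have h5 : τ.symm u = x := by
      rw [Equiv.symm_apply_eq]
      simp only [τ, Equiv.trans_apply]
      rw [h1, h3]
    dsimp only
    rw [h5]
    have h6 : g x = y := by
      rw [hx, hy]
      simp [g]
    rw [h6]
    simp only [τ, Equiv.trans_apply]
    exact h4

/-- a permutation enumerating a perfect matching -/
theorem exists_enum {n : ℕ} {M : Finset (EE n)} (hM : IsPM ea eb M) :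
    ∃ (σ : Equiv.Perm (VV n)) (g : Fin n ≃ M), ∀ k, σ (k, 0) = ea (g k).1 ∧ σ (k, 1) = eb (g k).1 := by
  have hc := card_pm hM
  have hc' : M.card = n := by
    simp only [Fintype.card_prod, Fintype.card_fin] at hc
    omega
  let g : Fin n ≃ M := (finCongr hc'.symm).trans M.equivFin.symm
  let s : VV n → VV n := fun p => if p.2 = 0 then ea (g p.1).1 else eb (g p.1).1
  have hs : Function.Surjective s := by
    intro v
    have h := hM.deg v
    rw [Finset.card_eq_one] at h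
    obtain ⟨e, he⟩ := h
    have h1 : e ∈ M.filter (Cr ea eb {v}) := by rw [he]; simp
    rw [Finset.mem_filter, Cr_singleton] at h1
    obtain ⟨h2, h3⟩ := h1
    by_cases h4 : ea e = v
    · refine ⟨(g.symm ⟨e, h2⟩, 0), ?_⟩
      simp [s, h4]
    · have h5 : eb e = v := by tauto
      refine ⟨(g.symm ⟨e, h2⟩, 1), ?_⟩
      simp [s, h5]
  have hb : Function.Bijective s := ⟨Finite.injective_iff_surjective.2 hs, hs⟩
  refine ⟨Equiv.ofBijective s hb, g, fun k => ⟨?_, ?_⟩⟩
  · simp [s]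
  · simp [s]

/-- the block permutations -/
def blk {n : ℕ} (π : Equiv.Perm (Fin n)) (τ : Fin n → Equiv.Perm (Fin 2)) : Equiv.Perm (VV n) where
  toFun p := (π p.1, τ p.1 p.2)
  invFun p := (π.symm p.1, (τ (π.symm p.1)).symm p.2)
  left_inv p := by simp
  right_inv p := by simp

theorem perm2 (τ : Equiv.Perm (Fin 2)) : (τ 0 = 0 ∧ τ 1 = 1) ∨ (τ 0 = 1 ∧ τ 1 = 0) := by
  have h : τ 0 ≠ τ 1 := fun h => by simpa using τ.injective h
  generalize τ 0 = x at *
  generalize τ 1 = y at *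
  fin_cases x <;> fin_cases y <;> simp_all

theorem blk_inj {n : ℕ} {π π' : Equiv.Perm (Fin n)} {τ τ' : Fin n → Equiv.Perm (Fin 2)}
    (h : blk π τ = blk π' τ') : π = π' ∧ τ = τ' := by
  have h1 : ∀ k i, (π k, τ k i) = (π' k, τ' k i) := by
    intro k i
    have := congrArg (fun s : Equiv.Perm (VV n) => s (k, i)) h
    simpa [blk] using this
  constructor
  · ext k
    have := h1 k 0
    rw [Prod.mk.injEq] at this
    rw [this.1]
  · funext k
    ext i
    have := h1 k i
    rw [Prod.mk.injEq] at this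
    rw [this.2]

/-- the weight of a permutation -/
def wt {n : ℕ} (B : Matrix (VV n) (VV n) ℝ) (σ : Equiv.Perm (VV n)) : ℝ :=
  ∏ k : Fin n, B (σ (k, 0)) (σ (k, 1))

theorem wt_blk {n : ℕ} {B : Matrix (VV n) (VV n) ℝ} (hB : ∀ i j, B i j = B j i)
    (σ : Equiv.Perm (VV n)) (π : Equiv.Perm (Fin n)) (τ : Fin n → Equiv.Perm (Fin 2)) :
    wt B ((blk π τ).trans σ) = wt B σ := by
  unfold wt
  rw [← Equiv.prod_comp π (fun k => B (σ (k, 0)) (σ (k, 1)))]
  apply Finset.prod_congr rfl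
  intro k _
  simp only [Equiv.trans_apply, blk, Equiv.coe_fn_mk]
  rcases perm2 (τ k) with ⟨h1, h2⟩ | ⟨h1, h2⟩
  · rw [h1, h2]
  · rw [h1, h2, hB]

open Classical in
theorem haf_le {n : ℕ} {B : Matrix (VV n) (VV n) ℝ} (hB : ∀ i j, B i j = B j i)
    (hB0 : ∀ i j, 0 ≤ B i j) :
    ∑ M ∈ Finset.univ.filter (fun M : Finset (EE n) => IsPM ea eb M), ∏ e ∈ M, B (ea e) (eb e) ≤
      (1 / ((n.factorial : ℝ) * 2 ^ n)) *
          ∑ σ : Equiv.Perm (VV n), ∏ k : Fin n, B (σ (k, 0)) (σ (k, 1)) := by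
  obtain ⟨P, hP⟩ : ∃ P : Finset (Finset (EE n)),
    P = Finset.univ.filter (fun M : Finset (EE n) => IsPM ea eb M) := ⟨_, rfl⟩
  have hex : ∀ M : Finset (EE n), ∃ σ : Equiv.Perm (VV n), IsPM ea eb M →
      ∃ g : Fin n ≃ M, ∀ k, σ (k, 0) = ea (g k).1 ∧ σ (k, 1) = eb (g k).1 := by
    intro M
    by_cases hM : IsPM ea eb M
    · obtain ⟨σ, g, h⟩ := exists_enum hM
      exact ⟨σ, fun _ => ⟨g, h⟩⟩
    · exact ⟨1, fun h => absurd h hM⟩
  choose σ hσ using hex
  have hw : ∀ M ∈ P, wt B (σ M) = ∏ e ∈ M, B (ea e) (eb e) := by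
    intro M hM
    rw [hP, Finset.mem_filter] at hM
    obtain ⟨g, hg⟩ := hσ M hM.2
    unfold wt
    rw [← Finset.prod_coe_sort M, ← g.prod_comp]
    apply Finset.prod_congr rfl
    intro k _
    rw [(hg k).1, (hg k).2]
  -- the pairs of a block-transformed permutation determine the matching
  have hrec : ∀ M ∈ P, ∀ π τ, ∀ e : EE n, e ∈ M ↔ ∃ k : Fin n,
      (ea e = ((blk π τ).trans (σ M)) (k, 0) ∧ eb e = ((blk π τ).trans (σ M)) (k, 1)) ∨
      (ea e = ((blk π τ).trans (σ M)) (k, 1) ∧ eb e = ((blk π τ).trans (σ M)) (k, 0)) := by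
    intro M hM π τ e
    rw [hP, Finset.mem_filter] at hM
    obtain ⟨g, hg⟩ := hσ M hM.2
    have hk : ∀ k : Fin n, (((blk π τ).trans (σ M)) (k, 0) = ea (g (π k)).1 ∧
        ((blk π τ).trans (σ M)) (k, 1) = eb (g (π k)).1) ∨
        (((blk π τ).trans (σ M)) (k, 0) = eb (g (π k)).1 ∧
        ((blk π τ).trans (σ M)) (k, 1) = ea (g (π k)).1) := by
      intro k
      simp only [Equiv.trans_apply, blk, Equiv.coe_fn_mk]
      rcases perm2 (τ k) with ⟨h1, h2⟩ | ⟨h1, h2⟩
      · left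
        rw [h1, h2]
        exact hg (π k)
      · right
        rw [h1, h2]
        exact ⟨(hg (π k)).2, (hg (π k)).1⟩
    constructor
    · intro he
      refine ⟨π.symm (g.symm ⟨e, he⟩), ?_⟩
      have h1 := hk (π.symm (g.symm ⟨e, he⟩))
      simp only [Equiv.apply_symm_apply] at h1
      rcases h1 with ⟨h2, h3⟩ | ⟨h2, h3⟩
      · left; rw [h2, h3]; exact ⟨rfl, rfl⟩
      · right; rw [h2, h3]; exact ⟨rfl, rfl⟩
    · rintro ⟨k, h1⟩
      have h2 : e = (g (π k)).1 := by
        apply ends_unique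
        rcases hk k with ⟨h3, h4⟩ | ⟨h3, h4⟩ <;> rcases h1 with ⟨h5, h6⟩ | ⟨h5, h6⟩
        · left; rw [h5, h6, h3, h4]; exact ⟨rfl, rfl⟩
        · right; rw [h5, h6, h3, h4]; exact ⟨rfl, rfl⟩
        · right; rw [h5, h6, h3, h4]; exact ⟨rfl, rfl⟩
        · left; rw [h5, h6, h3, h4]; exact ⟨rfl, rfl⟩
      rw [h2]
      exact (g (π k)).2
  let G := Equiv.Perm (Fin n) × (Fin n → Equiv.Perm (Fin 2))
  let T : Finset (Finset (EE n) × G) := P ×ˢ (Finset.univ : Finset G)
  let F : Finset (EE n) × G → Equiv.Perm (VV n) := fun x => (blk x.2.1 x.2.2).trans (σ x.1)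
  have hinj : Set.InjOn F T := by
    rintro ⟨M, π, τ⟩ h1 ⟨N, π', τ'⟩ h2 h
    simp only [T, Finset.mem_coe, Finset.mem_product] at h1 h2
    simp only [F] at h
    have hMN : M = N := by
      ext e
      rw [hrec M h1.1 π τ e, hrec N h2.1 π' τ' e, h]
    subst hMN
    have h3 : blk π τ = blk π' τ' := by
      ext1 x
      have := congrArg (fun s : Equiv.Perm (VV n) => s x) h
      simp only [Equiv.trans_apply] at this
      exact (σ M).injective this
    obtain ⟨h4, h5⟩ := blk_inj h3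
    rw [h4, h5]
  have hcardG : (Fintype.card G : ℝ) = (n.factorial : ℝ) * 2 ^ n := by
    simp only [G, Fintype.card_prod, Fintype.card_perm, Fintype.card_fin, Fintype.card_fun]
    push_cast
    norm_num
  have hpos : (0 : ℝ) < (n.factorial : ℝ) * 2 ^ n := by positivity
  rw [← hP, one_div, ← div_eq_inv_mul, le_div_iff₀ hpos]
  calc (∑ M ∈ P, ∏ e ∈ M, B (ea e) (eb e)) * ((n.factorial : ℝ) * 2 ^ n)
      = ∑ x ∈ T, wt B (F x) := by
        rw [Finset.sum_product, Finset.sum_mul]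
        apply Finset.sum_congr rfl
        intro M hM
        have h1 : ∀ y ∈ (Finset.univ : Finset G), wt B (F (M, y)) = ∏ e ∈ M, B (ea e) (eb e) := by
          intro y _
          simp only [F]
          rw [wt_blk hB, hw M hM]
        rw [Finset.sum_congr rfl h1, Finset.sum_const, Finset.card_univ, nsmul_eq_mul, hcardG,
          mul_comm]
    _ = ∑ s ∈ T.image F, wt B s := (Finset.sum_image hinj).symm
    _ ≤ ∑ s : Equiv.Perm (VV n), wt B s := by
        apply Finset.sum_le_sum_of_subset_of_nonneg (Finset.subset_univ _)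
        intro s _ _
        exact Finset.prod_nonneg fun k _ => hB0 _ _
    _ = _ := rfl

end Pool.Agent.H249R2.PM
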