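import Mathlib

/-! Farkas lemma (algebraic form, Bartl induction); adapted from helper575 (Pool.Agent.H575R2.Farkas). -/

set_option autoImplicit false

namespace Pool.Agent.H249R2.PM

/-- Algebraic Farkas lemma (Bartl's induction). -/
theorem farkas_lin {U : Type*} [AddCommGroup U] [Module ℝ U] :
    ∀ (m : ℕ) (ℓ : Fin m → (U →ₗ[ℝ] ℝ)) (f : U →ₗ[ℝ] ℝ),
      (∀ x, (∀ i, ℓ i x ≤ 0) → f x ≤ 0) →
      ∃ w : Fin m → ℝ, (∀ i, 0 ≤ w i) ∧ ∀ x, f x = ∑ i, w i * ℓ i x := by
  intro m
  induction m with
  | zero =>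
    intro ℓ f h
    refine ⟨fun i => 0, fun i => le_refl _, fun x => ?_⟩
    have h1 := h x (fun i => i.elim0)
    have h2 := h (-x) (fun i => i.elim0)
    rw [map_neg] at h2
    simp
    linarith
  | succ m ih =>
    intro ℓ f h
    by_cases hA : ∀ x, (∀ i : Fin m, ℓ i.castSucc x ≤ 0) → f x ≤ 0
    · obtain ⟨w, hw, hf⟩ := ih (fun i => ℓ i.castSucc) f hA
      refine ⟨Fin.snoc w 0, ?_, ?_⟩
      · intro i
        refine Fin.lastCases ?_ (fun j => ?_) i
        · simp
        · simpa using hw j
      · intro x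
        rw [Fin.sum_univ_castSucc]
        simp [hf x]
    · push Not at hA
      obtain ⟨x0, hx0, hfx0⟩ := hA
      have hlast : 0 < ℓ (Fin.last m) x0 := by
        by_contra hneg
        push Not at hneg
        have : f x0 ≤ 0 := h x0 (fun i => by
          refine Fin.lastCases ?_ (fun j => ?_) i
          · exact hneg
          · exact hx0 j)
        linarith
      set t : ℝ := ℓ (Fin.last m) x0 with ht
      -- y = x - (ℓ_last x / t) x0
      obtain ⟨w, hw, hf⟩ := ih
        (fun i => ℓ i.castSucc - (ℓ i.castSucc x0 / t) • ℓ (Fin.last m))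
        (f - (f x0 / t) • ℓ (Fin.last m)) (by
          intro x hx
          have key : f (x - (ℓ (Fin.last m) x / t) • x0) ≤ 0 := by
            apply h
            intro i
            refine Fin.lastCases ?_ (fun j => ?_) i
            · rw [map_sub, map_smul, smul_eq_mul, ← ht, div_mul_cancel₀ _ hlast.ne', sub_self]
            · have := hx j
              simp only [LinearMap.sub_apply, LinearMap.smul_apply, smul_eq_mul] at this
              rw [map_sub, map_smul, smul_eq_mul]
              have e : ℓ (Fin.last m) x / t * ℓ j.castSucc x0 =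
                ℓ j.castSucc x0 / t * ℓ (Fin.last m) x := by ring
              rw [e]
              exact this
          rw [map_sub, map_smul, smul_eq_mul] at key
          simp only [LinearMap.sub_apply, LinearMap.smul_apply, smul_eq_mul]
          have e : ℓ (Fin.last m) x / t * f x0 = f x0 / t * ℓ (Fin.last m) x := by ring
          rw [e] at key
          exact key)
      refine ⟨Fin.snoc w (f x0 / t - ∑ i, w i * (ℓ i.castSucc x0 / t)), ?_, ?_⟩
      · intro i
        refine Fin.lastCases ?_ (fun j => ?_) i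
        · simp only [Fin.snoc_last]
          have h1 : 0 < f x0 / t := div_pos hfx0 hlast
          have h2 : ∑ i, w i * (ℓ i.castSucc x0 / t) ≤ 0 := by
            apply Finset.sum_nonpos
            intro i _
            apply mul_nonpos_of_nonneg_of_nonpos (hw i)
            exact div_nonpos_of_nonpos_of_nonneg (hx0 i) hlast.le
          linarith
        · simpa using hw j
      · intro x
        have hx := hf x
        simp only [LinearMap.sub_apply, LinearMap.smul_apply, smul_eq_mul] at hx
        rw [Fin.sum_univ_castSucc]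
        simp only [Fin.snoc_castSucc, Fin.snoc_last]
        have e : ∑ i, w i * (ℓ i.castSucc x - ℓ i.castSucc x0 / t * ℓ (Fin.last m) x)
            = ∑ i, w i * ℓ i.castSucc x - (∑ i, w i * (ℓ i.castSucc x0 / t)) * ℓ (Fin.last m) x := by
          rw [Finset.sum_mul, ← Finset.sum_sub_distrib]
          refine Finset.sum_congr rfl fun i _ => ?_
          ring
        rw [e] at hx
        linarith

/-- Affine Farkas lemma: a valid affine inequality on a nonempty polyhedron is a
nonnegative combination of the constraints and of a constant. -/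
theorem farkas_affine {U : Type*} [AddCommGroup U] [Module ℝ U] (m : ℕ)
    (ℓ : Fin m → (U →ₗ[ℝ] ℝ)) (b : Fin m → ℝ) (f : U →ₗ[ℝ] ℝ) (τ : ℝ)
    (x0 : U) (hx0 : ∀ i, ℓ i x0 ≤ b i)
    (h : ∀ x, (∀ i, ℓ i x ≤ b i) → f x ≤ τ) :
    ∃ (w0 : ℝ) (w : Fin m → ℝ), 0 ≤ w0 ∧ (∀ i, 0 ≤ w i) ∧
      ∀ x, τ - f x = w0 + ∑ i, w i * (b i - ℓ i x) := by
  let L : Fin (m + 1) → ((U × ℝ) →ₗ[ℝ] ℝ) :=
    Fin.snoc (fun i => (ℓ i).comp (LinearMap.fst ℝ U ℝ) - (b i) • LinearMap.snd ℝ U ℝ)
      (-(LinearMap.snd ℝ U ℝ))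
  let F : (U × ℝ) →ₗ[ℝ] ℝ := f.comp (LinearMap.fst ℝ U ℝ) - τ • LinearMap.snd ℝ U ℝ
  have hL : ∀ i : Fin m, ∀ x t, L i.castSucc (x, t) = ℓ i x - b i * t := by
    intro i x t
    simp [L]
  have hL' : ∀ x t, L (Fin.last m) (x, t) = - t := by
    intro x t
    simp [L]
  have hF : ∀ x t, F (x, t) = f x - τ * t := by
    intro x t
    simp [F]
  obtain ⟨w, hw, hf⟩ := farkas_lin (m + 1) L F (by
    rintro ⟨x, t⟩ hx
    have ht : 0 ≤ t := by
      have := hx (Fin.last m)
      rw [hL'] at this
      linarith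
    have hx' : ∀ i : Fin m, ℓ i x ≤ b i * t := by
      intro i
      have := hx i.castSucc
      rw [hL] at this
      linarith
    rw [hF]
    rcases eq_or_lt_of_le ht with h0 | hpos
    · -- t = 0
      rw [← h0]
      by_contra hneg
      push Not at hneg
      have hfx : 0 < f x := by linarith
      have hx'' : ∀ i : Fin m, ℓ i x ≤ 0 := by
        intro i
        have := hx' i
        rw [← h0] at this
        linarith
      set s : ℝ := (τ - f x0 + 1) / f x with hs
      have hs0 : 0 ≤ s := by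
        apply div_nonneg _ hfx.le
        have := h x0 hx0
        linarith
      have := h (x0 + s • x) (fun i => by
        rw [map_add, map_smul, smul_eq_mul]
        have h1 := mul_nonpos_of_nonneg_of_nonpos hs0 (hx'' i)
        have h2 := hx0 i
        linarith)
      rw [map_add, map_smul, smul_eq_mul, hs, div_mul_cancel₀ _ hfx.ne'] at this
      linarith
    · have := h (t⁻¹ • x) (fun i => by
        rw [map_smul, smul_eq_mul]
        rw [inv_mul_le_iff₀ hpos]
        have := hx' i
        linarith [mul_comm (b i) t])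
      rw [map_smul, smul_eq_mul, inv_mul_le_iff₀ hpos] at this
      linarith [mul_comm τ t])
  refine ⟨w (Fin.last m), fun i => w i.castSucc, hw _, fun i => hw _, fun x => ?_⟩
  have := hf (x, 1)
  rw [hF, Fin.sum_univ_castSucc] at this
  simp only [hL, hL'] at this
  have e : ∑ i : Fin m, w i.castSucc * (b i - ℓ i x) = - ∑ i : Fin m, w i.castSucc * (ℓ i x - b i * 1) := by
    rw [← Finset.sum_neg_distrib]
    refine Finset.sum_congr rfl fun i _ => ?_
    ring
  rw [e]
  linarith

theorem farkas_fin {U ι : Type*} [AddCommGroup U] [Module ℝ U] [Fintype ι]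
    (ℓ : ι → (U →ₗ[ℝ] ℝ)) (b : ι → ℝ) (f : U →ₗ[ℝ] ℝ) (τ : ℝ)
    (x0 : U) (hx0 : ∀ i, ℓ i x0 ≤ b i)
    (h : ∀ x, (∀ i, ℓ i x ≤ b i) → f x ≤ τ) :
    ∃ (w0 : ℝ) (w : ι → ℝ), 0 ≤ w0 ∧ (∀ i, 0 ≤ w i) ∧
      ∀ x, τ - f x = w0 + ∑ i, w i * (b i - ℓ i x) := by
  let e := Fintype.equivFin ι
  obtain ⟨w0, w, h0, hw, hf⟩ := farkas_affine (Fintype.card ι) (fun i => ℓ (e.symm i))
    (fun i => b (e.symm i)) f τ x0 (fun i => hx0 _) (fun x hx => h x (fun i => by
      have := hx (e i)
      simpa using this))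
  refine ⟨w0, fun i => w (e i), h0, fun i => hw _, fun x => ?_⟩
  rw [hf x]
  congr 1
  rw [← e.symm.sum_comp]
  simp

end Pool.Agent.H249R2.PM
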