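import Pool.Agent.H249R2.PM.Round
import Pool.Agent.H249R2.PM.Farkas

/-! Strong duality for perfect matchings of a complete graph, uncrossing, and the rank bound for
Pareto-minimal cost vectors. -/

set_option autoImplicit false
set_option linter.unusedSectionVars false

namespace Pool.Agent.H249R2.PM

variable {V E : Type} [Fintype V] [DecidableEq V] [Fintype E] [DecidableEq E]

/-- indicator of crossing -/
def ci (a b : E → V) (T : Finset V) (e : E) : ℝ := if Cr a b T e then 1 else 0

theorem ci_nonneg (a b : E → V) (T : Finset V) (e : E) : 0 ≤ ci a b T e := by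
  unfold ci; split_ifs <;> norm_num

theorem cut_eq_ci (a b : E → V) (x : E → ℝ) (T : Finset V) :
    cut a b x T = ∑ e, ci a b T e * x e := by
  rw [cut_eq_ite]
  apply Finset.sum_congr rfl
  intro e _
  unfold ci
  split_ifs <;> simp

/-- odd sets avoiding the root -/
abbrev OddT (r : V) := {T : Finset V // Odd T.card ∧ r ∉ T}

/-- nontrivial odd sets -/
def Nt (T : Finset V) : Prop := T.card ≠ 1 ∧ T.card + 1 ≠ Fintype.card V

instance : DecidablePred (Nt (V := V)) := fun T => by unfold Nt; infer_instance

/-- the cost vector of a dual solution -/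
def wv (a b : E → V) (r : V) (u : OddT r → ℝ) (e : E) : ℝ := ∑ T : OddT r, u T * ci a b T.1 e

theorem parity {a b : E → V} {M : Finset E} (hM : IsPM a b M) (T : Finset V) :
    (Odd T.card ↔ Odd (M.filter (Cr a b T)).card) := by
  have h1 : T.card = ∑ e ∈ M, (T.filter (fun v => Cr a b {v} e)).card := by
    calc T.card = ∑ v ∈ T, 1 := by simp
      _ = ∑ v ∈ T, (M.filter (Cr a b {v})).card := by
          apply Finset.sum_congr rfl
          intro v _
          rw [hM.deg]
      _ = ∑ v ∈ T, ∑ e ∈ M, (if Cr a b {v} e then 1 else 0) := by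
          apply Finset.sum_congr rfl
          intro v _
          rw [Finset.card_filter]
      _ = ∑ e ∈ M, ∑ v ∈ T, (if Cr a b {v} e then 1 else 0) := Finset.sum_comm
      _ = _ := by
          apply Finset.sum_congr rfl
          intro e _
          rw [Finset.card_filter]
  have h2 : ∀ e ∈ M, (T.filter (fun v => Cr a b {v} e)).card =
      (if a e ∈ T then 1 else 0) + (if b e ∈ T then 1 else 0) := by
    intro e he
    have hne := hM.noloop e he
    rw [Finset.card_filter]
    have : ∀ v ∈ T, (if Cr a b {v} e then 1 else 0) =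
        (if v = a e then 1 else 0) + (if v = b e then 1 else 0) := by
      intro v _
      by_cases h3 : v = a e
      · subst h3
        rw [if_pos, if_pos rfl, if_neg hne]
        rw [Cr_singleton]
        simp [hne.symm]
      · by_cases h4 : v = b e
        · subst h4
          rw [if_pos, if_neg h3, if_pos rfl]
          rw [Cr_singleton]
          simp [hne]
        · rw [if_neg, if_neg h3, if_neg h4]
          rw [Cr_singleton]
          simp [Ne.symm h3, Ne.symm h4]
    rw [Finset.sum_congr rfl this, Finset.sum_add_distrib, Finset.sum_ite_eq', Finset.sum_ite_eq']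
  have h3 : T.card = (M.filter (Cr a b T)).card +
      2 * (M.filter (fun e => a e ∈ T ∧ b e ∈ T)).card := by
    rw [h1, Finset.sum_congr rfl h2, Finset.card_filter, Finset.card_filter, Finset.mul_sum,
      ← Finset.sum_add_distrib]
    apply Finset.sum_congr rfl
    intro e _
    unfold Cr
    by_cases h4 : a e ∈ T <;> by_cases h5 : b e ∈ T <;> simp [h4, h5]
  rw [h3]
  constructor
  · rintro ⟨p, hp⟩
    exact ⟨p - (M.filter (fun e => a e ∈ T ∧ b e ∈ T)).card, by omega⟩
  · rintro ⟨p, hp⟩
    exact ⟨p + (M.filter (fun e => a e ∈ T ∧ b e ∈ T)).card, by omega⟩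

/-- number of crossings for trivial sets -/
theorem triv_cross {a b : E → V} {M : Finset E} (hM : IsPM a b M) {r : V} (T : OddT r)
    (hT : ¬ Nt T.1) : (M.filter (Cr a b T.1)).card = 1 := by
  unfold Nt at hT
  by_cases h1 : T.1.card = 1
  · obtain ⟨v, hv⟩ := Finset.card_eq_one.1 h1
    rw [hv]
    exact hM.deg v
  · have h2 : T.1.card + 1 = Fintype.card V := by
      by_contra h
      exact hT ⟨h1, h⟩
    have h3 : T.1ᶜ = {r} := by
      have h4 : T.1ᶜ.card = 1 := by
        rw [Finset.card_compl]; omega
      obtain ⟨v, hv⟩ := Finset.card_eq_one.1 h4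
      have h5 : r ∈ T.1ᶜ := Finset.mem_compl.2 T.2.2
      rw [hv, Finset.mem_singleton] at h5
      rw [hv, h5]
    rw [← hM.deg r, ← h3]
    congr 1
    ext e
    simp [Cr_compl]

theorem sum_wv {a b : E → V} {r : V} (u : OddT r → ℝ) (M : Finset E) :
    ∑ e ∈ M, wv a b r u e = ∑ T : OddT r, u T * ((M.filter (Cr a b T.1)).card : ℝ) := by
  unfold wv
  rw [Finset.sum_comm]
  apply Finset.sum_congr rfl
  intro T _
  rw [← Finset.mul_sum]
  congr 1
  unfold ci
  rw [Finset.card_filter]
  push_cast
  rfl

/-- weak duality -/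
theorem weak {a b : E → V} {r : V} {u : OddT r → ℝ} (hu : ∀ T, Nt T.1 → 0 ≤ u T) {M : Finset E}
    (hM : IsPM a b M) : ∑ T, u T ≤ ∑ e ∈ M, wv a b r u e := by
  rw [sum_wv]
  apply Finset.sum_le_sum
  intro T _
  by_cases hT : Nt T.1
  · have h1 : Odd (M.filter (Cr a b T.1)).card := (parity hM T.1).1 T.2.1
    have h2 : (1 : ℝ) ≤ ((M.filter (Cr a b T.1)).card : ℝ) := by
      exact_mod_cast h1.pos
    nlinarith [hu T hT]
  · rw [triv_cross hM T hT]
    simp

/-- strong duality -/
theorem strong (hV : Even (Fintype.card V)) {a b : E → V} (hl : ∀ e, a e ≠ b e) (r : V)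
    {x0 : E → ℝ} (hx0 : Fr a b x0) {w : E → ℝ} {F : ℝ}
    (hF : ∀ M, IsPM a b M → F ≤ ∑ e ∈ M, w e) :
    ∃ u : OddT r → ℝ, (∀ T, Nt T.1 → 0 ≤ u T) ∧ (∀ e, wv a b r u e ≤ w e) ∧ F ≤ ∑ T, u T := by
  classical
  let cutL : Finset V → ((E → ℝ) →ₗ[ℝ] ℝ) := fun T => ∑ e, ci a b T e • LinearMap.proj e
  have hcutL : ∀ T x, cutL T x = cut a b x T := by
    intro T x
    simp [cutL, cut_eq_ci]
  let ℓ : E ⊕ (OddT r) ⊕ (OddT r) → ((E → ℝ) →ₗ[ℝ] ℝ) := fun i => match i with
    | .inl e => - LinearMap.proj e
    | .inr (.inl T) => - cutL T.1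
    | .inr (.inr T) => if Nt T.1 then 0 else cutL T.1
  let β : E ⊕ (OddT r) ⊕ (OddT r) → ℝ := fun i => match i with
    | .inl _ => 0
    | .inr (.inl _) => -1
    | .inr (.inr T) => if Nt T.1 then 0 else 1
  let f : (E → ℝ) →ₗ[ℝ] ℝ := - ∑ e, w e • LinearMap.proj e
  have hf : ∀ x, f x = - ∑ e, w e * x e := by
    intro x
    simp [f]
  have htriv : ∀ (T : OddT r), ¬ Nt T.1 → ∀ x, (∀ v, cut a b x {v} = 1) → cut a b x T.1 = 1 := by
    intro T hT x hx
    unfold Nt at hT
    by_cases h1 : T.1.card = 1
    · obtain ⟨v, hv⟩ := Finset.card_eq_one.1 h1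
      rw [hv, hx]
    · have h2 : T.1.card + 1 = Fintype.card V := by
        by_contra h
        exact hT ⟨h1, h⟩
      have h4 : T.1ᶜ.card = 1 := by
        rw [Finset.card_compl]; omega
      obtain ⟨v, hv⟩ := Finset.card_eq_one.1 h4
      rw [← cut_compl, hv, hx]
  obtain ⟨w0, ν, hw0, hν, hid⟩ := farkas_fin ℓ β f (-F) x0 (by
      rintro (e | T | T)
      · simp only [ℓ, β, LinearMap.neg_apply, LinearMap.proj_apply]
        linarith [hx0.nonneg e]
      · simp only [ℓ, β, LinearMap.neg_apply, hcutL]
        linarith [hx0.odd T.1 T.2.1]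
      · simp only [ℓ, β]
        by_cases hT : Nt T.1
        · simp [hT]
        · rw [if_neg hT, if_neg hT, hcutL, htriv T hT x0 hx0.deg])
    (by
      intro x hx
      have hn : ∀ e, 0 ≤ x e := by
        intro e
        have := hx (.inl e)
        simp only [ℓ, β, LinearMap.neg_apply, LinearMap.proj_apply] at this
        linarith
      have ho : ∀ T : OddT r, 1 ≤ cut a b x T.1 := by
        intro T
        have := hx (.inr (.inl T))
        simp only [ℓ, β, LinearMap.neg_apply, hcutL] at this
        linarith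
      have ht : ∀ T : OddT r, ¬ Nt T.1 → cut a b x T.1 = 1 := by
        intro T hT
        have := hx (.inr (.inr T))
        simp only [ℓ, β, if_neg hT, hcutL] at this
        exact le_antisymm this (ho T)
      have hodd : ∀ S : Finset V, Odd S.card → Odd Sᶜ.card := by
        intro S hS
        rw [Finset.card_compl]
        have h1 : S.card ≤ Fintype.card V := Finset.card_le_univ S
        obtain ⟨p, hp⟩ := hS
        obtain ⟨q, hq⟩ := hV
        exact ⟨q - p - 1, by omega⟩
      have hFr : Fr a b x := by
        refine ⟨hn, ?_, ?_⟩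
        · intro v
          by_cases hv : v = r
          · subst hv
            have h1 : Odd ({v} : Finset V)ᶜ.card := hodd {v} (by simp)
            have h2 : v ∉ ({v} : Finset V)ᶜ := by simp
            rw [← cut_compl]
            apply ht ⟨_, h1, h2⟩
            unfold Nt
            simp only [ne_eq, not_and, not_not]
            intro _
            rw [Finset.card_compl, Finset.card_singleton]
            have : 0 < Fintype.card V := Fintype.card_pos_iff.2 ⟨v⟩
            omega
          · apply ht ⟨{v}, by simp, by simp [Ne.symm hv]⟩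
            unfold Nt
            simp
        · intro S hS
          by_cases hr : r ∈ S
          · rw [← cut_compl]
            exact ho ⟨Sᶜ, hodd S hS, by simp [hr]⟩
          · exact ho ⟨S, hS, hr⟩
      obtain ⟨M, hM, _, hMc⟩ := round (Fintype.card V) V rfl hV a b x w hFr
      have h1 := hF M hM
      have h2 : Finset.univ.filter (fun e => a e ≠ b e) = (Finset.univ : Finset E) := by
        apply Finset.filter_true_of_mem
        intro e _
        exact hl e
      rw [h2] at hMc
      rw [hf]
      linarith)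
  let u : OddT r → ℝ := fun T => ν (.inr (.inl T)) - (if Nt T.1 then 0 else ν (.inr (.inr T)))
  have hsplit : ∀ x, ∑ i, ν i * (β i - ℓ i x) =
      ∑ e, ν (.inl e) * x e - ∑ T : OddT r, u T + ∑ e, wv a b r u e * x e := by
    intro x
    rw [Fintype.sum_sum_type, Fintype.sum_sum_type]
    have h1 : ∑ e, ν (Sum.inl e) * (β (Sum.inl e) - ℓ (Sum.inl e) x) = ∑ e, ν (.inl e) * x e := by
      apply Finset.sum_congr rfl
      intro e _
      simp only [ℓ, β, LinearMap.neg_apply, LinearMap.proj_apply]
      ring
    have h2 : ∑ T, ν (Sum.inr (Sum.inl T)) * (β (Sum.inr (Sum.inl T)) - ℓ (Sum.inr (Sum.inl T)) x)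
        + ∑ T, ν (Sum.inr (Sum.inr T)) * (β (Sum.inr (Sum.inr T)) - ℓ (Sum.inr (Sum.inr T)) x) =
        - ∑ T : OddT r, u T + ∑ T : OddT r, u T * cut a b x T.1 := by
      rw [← Finset.sum_add_distrib, ← Finset.sum_neg_distrib, ← Finset.sum_add_distrib]
      apply Finset.sum_congr rfl
      intro T _
      simp only [ℓ, β, u, LinearMap.neg_apply, hcutL]
      by_cases hT : Nt T.1
      · simp [hT]
        ring
      · simp only [if_neg hT, hcutL]
        ring
    have h3 : ∑ e, wv a b r u e * x e = ∑ T : OddT r, u T * cut a b x T.1 := by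
      simp only [wv, cut_eq_ci, Finset.sum_mul, Finset.mul_sum]
      rw [Finset.sum_comm]
      apply Finset.sum_congr rfl
      intro T _
      apply Finset.sum_congr rfl
      intro e _
      ring
    rw [h1, h2, h3]
    ring
  refine ⟨u, ?_, ?_, ?_⟩
  · intro T hT
    simp only [u, if_pos hT, sub_zero]
    exact hν _
  · intro e
    have h0 := hid 0
    have h1 := hid (Pi.single e 1)
    rw [hsplit, hf] at h0 h1
    simp only [Pi.zero_apply, mul_zero, Finset.sum_const_zero, neg_zero, sub_zero, zero_sub,
      add_zero] at h0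
    simp only [Pi.single_apply, mul_ite, mul_one, mul_zero, Finset.sum_ite_eq', Finset.mem_univ,
      if_true] at h1
    have := hν (.inl e)
    linarith
  · have h0 := hid 0
    rw [hsplit, hf] at h0
    simp only [Pi.zero_apply, mul_zero, Finset.sum_const_zero, neg_zero, sub_zero, zero_sub,
      add_zero] at h0
    linarith

end Pool.Agent.H249R2.PM
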