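import Pool.Agent.H249R2.PM.Bridge

/-! The exponential lower bound for the hafnian on the perfect matching polytope. -/

set_option autoImplicit false
set_option linter.unusedSectionVars false

namespace Pool.Agent.H249R2.PM

theorem exists_gen (E : Type) [Fintype E] [DecidableEq E] : ∃ θ : E → ℝ,
    (∀ e, 0 < θ e ∧ θ e < 1) ∧
    ∀ (q : E → ℚ) (q0 : ℚ), ∑ e, (q e : ℝ) * θ e + q0 = 0 → q = 0 := by
  obtain ⟨α, hα, hα0, hα1⟩ := ((Algebraic.countable ℚ ℝ).dense_compl ℝ).exists_between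
    (show (0 : ℝ) < 1 by norm_num)
  have htr : ¬ IsAlgebraic ℚ α := hα
  let i := Fintype.equivFin E
  refine ⟨fun e => α ^ ((i e : ℕ) + 1), fun e => ⟨pow_pos hα0 _, ?_⟩, ?_⟩
  · exact pow_lt_one₀ hα0.le hα1 (by omega)
  · intro q q0 h
    by_contra hq
    obtain ⟨e, he⟩ := Function.ne_iff.1 hq
    apply htr
    refine ⟨∑ f, Polynomial.C (q f) * Polynomial.X ^ ((i f : ℕ) + 1) + Polynomial.C q0, ?_, ?_⟩
    · intro h0
      apply he
      have h1 := congrArg (fun p : Polynomial ℚ => p.coeff ((i e : ℕ) + 1)) h0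
      simp only [Polynomial.coeff_add, Polynomial.finsetSum_coeff, Polynomial.coeff_C_mul,
        Polynomial.coeff_X_pow, Polynomial.coeff_C_succ, add_zero, Polynomial.coeff_zero] at h1
      rw [Finset.sum_eq_single e] at h1
      · simpa using h1
      · intro f _ hf
        rw [if_neg, mul_zero]
        intro h2
        apply hf
        apply i.injective
        ext
        omega
      · intro h2
        exact absurd (Finset.mem_univ _) h2
    · rw [← h]
      simp [Polynomial.aeval_def, Polynomial.eval₂_add, Polynomial.eval₂_finsetSum,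
        Polynomial.eval₂_mul, Polynomial.eval₂_pow, Polynomial.eval₂_C, Polynomial.eval₂_X]

/-- the generators -/
def Gn (n : ℕ) : Set (Matrix (VV n) (VV n) ℝ) :=
  {M : Matrix (Fin n × Fin 2) (Fin n × Fin 2) ℝ |
            ∃ f : Fin n × Fin 2 → Fin n × Fin 2,
              (∀ i, f i ≠ i ∧ f (f i) = i) ∧
              M = Matrix.of (fun i j => if f i = j then (1 : ℝ) else 0)}

/-- properties of the points of the hull -/
structure Good {n : ℕ} (B : Matrix (VV n) (VV n) ℝ) : Prop where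
  nonneg : ∀ i j, 0 ≤ B i j
  symm : ∀ i j, B i j = B j i
  hull : ∀ (w : EE n → ℝ) (F : ℝ), (∀ M, IsPM ea eb M → F ≤ ∑ e ∈ M, w e) →
    F ≤ ∑ e, B (ea e) (eb e) * w e

theorem good_of_mem {n : ℕ} {B : Matrix (VV n) (VV n) ℝ} (hB : B ∈ convexHull ℝ (Gn n)) :
    Good B := by
  have hconv : Convex ℝ {B : Matrix (VV n) (VV n) ℝ | Good B} := by
    intro A hA B hB s t hs ht hst
    refine ⟨?_, ?_, ?_⟩
    · intro i j
      have h1 := hA.nonneg i j
      have h2 := hB.nonneg i j
      simp only [Matrix.add_apply, Matrix.smul_apply, smul_eq_mul]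
      positivity
    · intro i j
      simp only [Matrix.add_apply, Matrix.smul_apply, smul_eq_mul]
      rw [hA.symm i j, hB.symm i j]
    · intro w F h
      have h1 := hA.hull w F h
      have h2 := hB.hull w F h
      have h3 : ∑ e, (s • A + t • B) (ea e) (eb e) * w e =
          s * ∑ e, A (ea e) (eb e) * w e + t * ∑ e, B (ea e) (eb e) * w e := by
        rw [Finset.mul_sum, Finset.mul_sum, ← Finset.sum_add_distrib]
        apply Finset.sum_congr rfl
        intro e _
        simp only [Matrix.add_apply, Matrix.smul_apply, smul_eq_mul]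
        ring
      rw [h3]
      have h4 : F = s * F + t * F := by rw [← add_mul, hst, one_mul]
      rw [h4]
      exact add_le_add (mul_le_mul_of_nonneg_left h1 hs) (mul_le_mul_of_nonneg_left h2 ht)
  have hsub : Gn n ⊆ {B : Matrix (VV n) (VV n) ℝ | Good B} := by
    rintro B ⟨f, hf, rfl⟩
    refine ⟨?_, ?_, ?_⟩
    · intro i j
      simp only [Matrix.of_apply]
      split_ifs <;> norm_num
    · intro i j
      simp only [Matrix.of_apply]
      congr 1
      apply propext
      constructor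
      · intro h
        rw [← h, (hf i).2]
      · intro h
        rw [← h, (hf j).2]
    · intro w F h
      have h1 := h (Mf f) (Mf_isPM hf)
      refine h1.trans (le_of_eq ?_)
      unfold Mf
      rw [Finset.sum_filter]
      apply Finset.sum_congr rfl
      intro e _
      simp only [Matrix.of_apply]
      split_ifs <;> simp
  exact convexHull_min hsub hconv hB

theorem exists_interior {n : ℕ} (hn : 1 ≤ n) : ∃ J ∈ convexHull ℝ (Gn n), ∀ e : EE n,
    0 < J (ea e) (eb e) := by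
  have hE : Nonempty (EE n) := by
    have h1 : ((⟨0, by omega⟩, 0) : VV n) ≠ (⟨0, by omega⟩, 1) := by simp
    exact ⟨mkE _ _ h1⟩
  have hch : ∀ e : EE n, ∃ A ∈ Gn n, A (ea e) (eb e) = 1 := by
    intro e
    obtain ⟨f, hf, hfe⟩ := exists_inv (ea e) (eb e) (ea_ne_eb e)
    exact ⟨_, ⟨f, hf, rfl⟩, by simp [hfe]⟩
  choose A hA hA1 using hch
  have hc : (0 : ℝ) < (Fintype.card (EE n) : ℝ) := by
    exact_mod_cast Fintype.card_pos
  refine ⟨∑ e, ((Fintype.card (EE n) : ℝ)⁻¹) • A e, ?_, ?_⟩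
  · apply (convex_convexHull ℝ (Gn n)).sum_mem
    · intro e _
      positivity
    · rw [Finset.sum_const, Finset.card_univ, nsmul_eq_mul]
      field_simp
    · intro e _
      exact subset_convexHull ℝ _ (hA e)
  · intro e
    rw [Matrix.sum_apply]
    have h1 : ∀ f ∈ (Finset.univ : Finset (EE n)),
        0 ≤ (((Fintype.card (EE n) : ℝ)⁻¹) • A f) (ea e) (eb e) := by
      intro f _
      have := (good_of_mem (subset_convexHull ℝ _ (hA f))).nonneg (ea e) (eb e)
      simp only [Matrix.smul_apply, smul_eq_mul]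
      positivity
    refine lt_of_lt_of_le ?_ (Finset.single_le_sum h1 (Finset.mem_univ e))
    simp only [Matrix.smul_apply, smul_eq_mul, hA1 e]
    positivity

theorem haf_pos {n : ℕ} (hn : 1 ≤ n) {B : Matrix (VV n) (VV n) ℝ} (hB : Good B)
    (hpos : ∀ e : EE n, 0 < B (ea e) (eb e)) :
    (1 / 2 : ℝ) ^ (12 * n) ≤ (1 / ((n.factorial : ℝ) * 2 ^ n)) *
          ∑ σ : Equiv.Perm (VV n), ∏ k : Fin n, B (σ (k, 0)) (σ (k, 1)) := by
  obtain ⟨θ, hθ, hgen⟩ := exists_gen (EE n)
  have hE : ∃ e : EE n, True := by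
    have h1 : ((⟨0, by omega⟩, 0) : VV n) ≠ (⟨0, by omega⟩, 1) := by simp
    exact ⟨mkE _ _ h1, trivial⟩
  obtain ⟨e0, _⟩ := hE
  obtain ⟨f, hf, _⟩ := exists_inv (ea e0) (eb e0) (ea_ne_eb e0)
  have hpm := Mf_isPM hf
  refine le_trans ?_ (haf_le hB.symm hB.nonneg)
  exact haf_lower hn (by simp [mul_comm]) ea_ne_eb comp_EE hpm.fr
    (β := fun e => B (ea e) (eb e)) ⟨hpos, hB.hull⟩ ⟨_, hpm⟩ hθ hgen

theorem main {n : ℕ} (hn : 1 ≤ n) {B : Matrix (VV n) (VV n) ℝ}
    (hB : B ∈ convexHull ℝ (Gn n)) :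
    (1 / 2 : ℝ) ^ (12 * n) ≤ (1 / ((n.factorial : ℝ) * 2 ^ n)) *
          ∑ σ : Equiv.Perm (VV n), ∏ k : Fin n, B (σ (k, 0)) (σ (k, 1)) := by
  obtain ⟨J, hJ, hJ0⟩ := exists_interior hn
  let H : ℝ → ℝ := fun t => (1 / ((n.factorial : ℝ) * 2 ^ n)) *
    ∑ σ : Equiv.Perm (VV n), ∏ k : Fin n, ((1 - t) * B (σ (k, 0)) (σ (k, 1)) +
      t * J (σ (k, 0)) (σ (k, 1)))
  have hH : Continuous H := by
    unfold H
    fun_prop
  have h0 : H 0 = (1 / ((n.factorial : ℝ) * 2 ^ n)) *
      ∑ σ : Equiv.Perm (VV n), ∏ k : Fin n, B (σ (k, 0)) (σ (k, 1)) := by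
    simp [H]
  rw [← h0]
  have hev : ∀ᶠ t in nhdsWithin (0 : ℝ) (Set.Ioi 0), (1 / 2 : ℝ) ^ (12 * n) ≤ H t := by
    filter_upwards [ev_small 1 1 one_pos, self_mem_nhdsWithin] with t ht1 ht0
    have ht0' : 0 < t := ht0
    have h1 : (1 - t) • B + t • J ∈ convexHull ℝ (Gn n) :=
      (convex_convexHull ℝ (Gn n)) hB hJ (by linarith) ht0'.le (by ring)
    have h2 := good_of_mem h1
    have h3 := haf_pos hn h2 (fun e => by
      have h4 := (good_of_mem hB).nonneg (ea e) (eb e)
      have h5 := hJ0 e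
      simp only [Matrix.add_apply, Matrix.smul_apply, smul_eq_mul]
      have h6 : 0 < 1 - t := by linarith
      positivity)
    simpa only [H, Matrix.add_apply, Matrix.smul_apply, smul_eq_mul] using h3
  have htend : Filter.Tendsto H (nhdsWithin (0 : ℝ) (Set.Ioi 0)) (nhds (H 0)) :=
    (hH.tendsto 0).mono_left nhdsWithin_le_nhds
  exact ge_of_tendsto htend hev

end Pool.Agent.H249R2.PM
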