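import Mathlib

/-! Geometric distribution on `ℕ` with ratio `1/(1+β)` (mean `1/β`) and the memoryless inequality. -/

set_option autoImplicit false

open MeasureTheory ENNReal

namespace Pool.Agent.H249R2.PM

/-- weights -/
noncomputable def gw (β : ℝ) (k : ℕ) : ℝ≥0∞ := ENNReal.ofReal (β / (1 + β) * (1 / (1 + β)) ^ k)

/-- geometric distribution -/
noncomputable def geo (β : ℝ) : Measure ℕ := Measure.sum (fun k => gw β k • Measure.dirac k)

theorem lintegral_geo (β : ℝ) (f : ℕ → ℝ≥0∞) : ∫⁻ k, f k ∂(geo β) = ∑' k, gw β k * f k := by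
  unfold geo
  rw [lintegral_sum_measure]
  simp

theorem tsum_geom {β r : ℝ} (hβ : 0 < β) (hr0 : 0 ≤ r) (hr1 : r < 1 + β) :
    ∑' k, gw β k * ENNReal.ofReal (r ^ k) = ENNReal.ofReal (β / (1 + β - r)) := by
  have h1 : 0 < 1 + β := by linarith
  have h2 : ∀ k, gw β k * ENNReal.ofReal (r ^ k) =
      ENNReal.ofReal (β / (1 + β) * (r / (1 + β)) ^ k) := by
    intro k
    unfold gw
    rw [← ENNReal.ofReal_mul (by positivity)]
    congr 1
    rw [div_pow, div_pow, one_pow]
    ring
  have hlt : r / (1 + β) < 1 := by rw [div_lt_one h1]; exact hr1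
  have hs : HasSum (fun k : ℕ => β / (1 + β) * (r / (1 + β)) ^ k) (β / (1 + β - r)) := by
    have h3 := (hasSum_geometric_of_lt_one (div_nonneg hr0 h1.le) hlt).mul_left (β / (1 + β))
    have h4 : (1 + β - r) ≠ 0 := by linarith
    have h5 : 1 - r / (1 + β) = (1 + β - r) / (1 + β) := by field_simp
    have h6 : β / (1 + β - r) = β / (1 + β) * (1 - r / (1 + β))⁻¹ := by
      rw [h5]
      field_simp
    rw [h6]
    exact h3
  rw [tsum_congr h2]
  rw [← hs.tsum_eq]
  rw [ENNReal.ofReal_tsum_of_nonneg (fun k => by positivity) hs.summable]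

theorem tsum_gw {β : ℝ} (hβ : 0 < β) : ∑' k, gw β k = 1 := by
  have := tsum_geom hβ (r := 1) (by norm_num) (by linarith)
  simp only [one_pow, ENNReal.ofReal_one, mul_one] at this
  rw [this]
  have : 1 + β - 1 = β := by ring
  rw [this, div_self hβ.ne', ENNReal.ofReal_one]

theorem geo_prob {β : ℝ} (hβ : 0 < β) : IsProbabilityMeasure (geo β) := by
  constructor
  have := lintegral_geo β (fun _ => 1)
  simp only [mul_one, lintegral_one] at this
  rw [this, tsum_gw hβ]

theorem tsum_gw_nat {β : ℝ} (hβ : 0 < β) : ∑' k : ℕ, gw β k * (k : ℝ≥0∞) = ENNReal.ofReal (1 / β) := by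
  have h1 : 0 < 1 + β := by linarith
  have h2 : ∀ k : ℕ, gw β k * (k : ℝ≥0∞) =
      ENNReal.ofReal (β / (1 + β) * (k * (1 / (1 + β)) ^ k)) := by
    intro k
    unfold gw
    rw [← ENNReal.ofReal_natCast k, ← ENNReal.ofReal_mul (by positivity)]
    congr 1
    ring
  have hlt : ‖1 / (1 + β)‖ < 1 := by
    rw [Real.norm_of_nonneg (by positivity), div_lt_one h1]
    linarith
  have hs : HasSum (fun k : ℕ => β / (1 + β) * (k * (1 / (1 + β)) ^ k)) (1 / β) := by
    have h3 := (hasSum_coe_mul_geometric_of_norm_lt_one hlt).mul_left (β / (1 + β))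
    have h5 : 1 - 1 / (1 + β) = β / (1 + β) := by field_simp; ring
    have h6 : 1 / β = β / (1 + β) * (1 / (1 + β) / (1 - 1 / (1 + β)) ^ 2) := by
      rw [h5]
      field_simp
    rw [h6]
    exact h3
  rw [tsum_congr h2, ← hs.tsum_eq]
  rw [ENNReal.ofReal_tsum_of_nonneg (fun k => by positivity) hs.summable]

theorem gw_add (β : ℝ) (hβ : 0 < β) (j k : ℕ) :
    gw β (k + j) = ENNReal.ofReal ((1 / (1 + β)) ^ j) * gw β k := by
  unfold gw
  rw [← ENNReal.ofReal_mul (by positivity)]
  congr 1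
  rw [pow_add]
  ring

/-- the memoryless inequality on one line -/
theorem line_ineq {β : ℝ} (hβ : 0 < β) (s : ℕ → ℝ≥0∞)
    (hs : ∀ k₁, 0 < s k₁ → ∀ k, k₁ ≤ k → ((k - k₁ : ℕ) : ℝ≥0∞) ≤ s k ∧ 0 < s k) :
    ∫⁻ k, (if 0 < s k then 1 else 0) ∂(geo β) ≤ ∫⁻ k, ENNReal.ofReal β * s k ∂(geo β) := by
  classical
  rw [lintegral_geo, lintegral_geo]
  by_cases hex : ∃ k, 0 < s k
  · obtain ⟨k₀, hk₀⟩ : ∃ k₀, k₀ = Nat.find hex := ⟨_, rfl⟩
    have h0 : 0 < s k₀ := by rw [hk₀]; exact Nat.find_spec hex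
    have hlt : ∀ k, k < k₀ → s k = 0 := by
      intro k hk
      rw [hk₀] at hk
      have := Nat.find_min hex hk
      simpa using this
    have hL : ∑' k, gw β k * (if 0 < s k then 1 else 0) = ENNReal.ofReal ((1 / (1 + β)) ^ k₀) := by
      rw [← Summable.sum_add_tsum_nat_add' (k := k₀) ENNReal.summable]
      rw [Finset.sum_eq_zero, zero_add]
      · have h1 : ∀ k, gw β (k + k₀) * (if 0 < s (k + k₀) then 1 else 0) =
            ENNReal.ofReal ((1 / (1 + β)) ^ k₀) * gw β k := by
          intro k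
          rw [if_pos ((hs k₀ h0 (k + k₀) (by omega)).2), mul_one, gw_add β hβ]
        rw [tsum_congr h1, ENNReal.tsum_mul_left, tsum_gw hβ, mul_one]
      · intro k hk
        rw [hlt k (Finset.mem_range.1 hk)]
        simp
    have hR : ENNReal.ofReal ((1 / (1 + β)) ^ k₀) ≤ ∑' k, gw β k * (ENNReal.ofReal β * s k) := by
      calc ENNReal.ofReal ((1 / (1 + β)) ^ k₀)
          = ENNReal.ofReal ((1 / (1 + β)) ^ k₀) * (ENNReal.ofReal β * ENNReal.ofReal (1 / β)) := by
            rw [← ENNReal.ofReal_mul hβ.le, mul_one_div_cancel hβ.ne', ENNReal.ofReal_one, mul_one]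
        _ = ∑' k : ℕ, gw β (k + k₀) * (ENNReal.ofReal β * (k : ℝ≥0∞)) := by
            rw [← tsum_gw_nat hβ, ← ENNReal.tsum_mul_left, ← ENNReal.tsum_mul_left]
            apply tsum_congr
            intro k
            rw [gw_add β hβ]
            ring
        _ ≤ ∑' k : ℕ, gw β (k + k₀) * (ENNReal.ofReal β * s (k + k₀)) := by
            apply ENNReal.tsum_le_tsum
            intro k
            have := (hs k₀ h0 (k + k₀) (by omega)).1
            rw [Nat.add_sub_cancel] at this
            gcongr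
        _ ≤ ∑' k, gw β k * (ENNReal.ofReal β * s k) :=
            ENNReal.tsum_comp_le_tsum_of_injective (add_left_injective k₀)
              (fun k => gw β k * (ENNReal.ofReal β * s k))
    rw [hL]
    exact hR
  · push Not at hex
    have : ∀ k, gw β k * (if 0 < s k then 1 else 0) = 0 := by
      intro k
      rw [if_neg (not_lt.2 (hex k)), mul_zero]
    rw [tsum_congr this, tsum_zero]
    exact bot_le

end Pool.Agent.H249R2.PM
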