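import Pool.Agent.H249R2.PM.Select
import Pool.Agent.H249R2.PM.Geom

/-! The random cost argument. -/

set_option autoImplicit false
set_option linter.unusedSectionVars false

open MeasureTheory ENNReal

namespace Pool.Agent.H249R2.PM

variable {V E : Type} [Fintype V] [DecidableEq V] [Fintype E] [DecidableEq E]

theorem card_pm {a b : E → V} {M : Finset E} (hM : IsPM a b M) :
    2 * M.card = Fintype.card V := by
  have h1 : Fintype.card V = ∑ e ∈ M, (Finset.univ.filter (fun v => Cr a b {v} e)).card := by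
    calc Fintype.card V = ∑ v : V, 1 := by simp
      _ = ∑ v : V, (M.filter (Cr a b {v})).card := by
          apply Finset.sum_congr rfl
          intro v _
          rw [hM.deg]
      _ = ∑ v : V, ∑ e ∈ M, (if Cr a b {v} e then 1 else 0) := by
          apply Finset.sum_congr rfl
          intro v _
          rw [Finset.card_filter]
      _ = ∑ e ∈ M, ∑ v : V, (if Cr a b {v} e then 1 else 0) := Finset.sum_comm
      _ = _ := by
          apply Finset.sum_congr rfl
          intro e _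
          rw [Finset.card_filter]
  have h2 : ∀ e ∈ M, (Finset.univ.filter (fun v => Cr a b {v} e)).card = 2 := by
    intro e he
    have hne := hM.noloop e he
    have : Finset.univ.filter (fun v => Cr a b {v} e) = {a e, b e} := by
      ext v
      simp only [Finset.mem_filter, Finset.mem_univ, true_and, Finset.mem_insert,
        Finset.mem_singleton, Cr_singleton]
      constructor
      · intro h
        by_contra hcon
        push Not at hcon
        exact h ⟨fun h => absurd h.symm hcon.1, fun h => absurd h.symm hcon.2⟩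
      · rintro (h | h)
        · subst h
          simp [hne.symm]
        · subst h
          simp [hne]
    rw [this, Finset.card_pair hne]
  rw [h1, Finset.sum_congr rfl h2, Finset.sum_const, smul_eq_mul, mul_comm]

/-- the cost vector of a grid point -/
def cst (θ : E → ℝ) (k : E → ℕ) : E → ℝ := fun e => θ e + k e

/-- slack -/
noncomputable def sl (a b : E → V) (θ : E → ℝ) (k : E → ℕ) (e : E) : ℝ≥0∞ :=
  ENNReal.ofReal (cst θ k e - sel a b (cst θ k) e)

theorem sl_pos {a b : E → V} {θ : E → ℝ} {k : E → ℕ} {e : E} :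
    0 < sl a b θ k e ↔ sel a b (cst θ k) e < cst θ k e := by
  unfold sl
  rw [ENNReal.ofReal_pos]
  constructor <;> intro h <;> linarith

theorem sl_line {a b : E → V} {β : E → ℝ} (hβ : Wt a b β) (hex : ∃ M, IsPM a b M) (θ : E → ℝ)
    (k : E → ℕ) (e : E) (j₁ : ℕ) (h : 0 < sl a b θ (Function.update k e j₁) e) (j : ℕ)
    (hj : j₁ ≤ j) : ((j - j₁ : ℕ) : ℝ≥0∞) ≤ sl a b θ (Function.update k e j) e ∧
      0 < sl a b θ (Function.update k e j) e := by
  obtain ⟨c₁, hc₁⟩ : ∃ c₁, c₁ = cst θ (Function.update k e j₁) := ⟨_, rfl⟩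
  have h1 : c₁ e = θ e + j₁ := by rw [hc₁]; simp [cst]
  have h2 : cst θ (Function.update k e j) = Function.update c₁ e (θ e + j) := by
    ext f
    by_cases hf : f = e
    · subst hf
      simp [cst]
    · rw [Function.update_of_ne hf, hc₁]
      simp [cst, hf]
  rw [sl_pos, ← hc₁] at h
  have hjj : (j₁ : ℝ) ≤ j := by exact_mod_cast hj
  have h3 := sel_line hβ hex c₁ e (θ e + j) h (by rw [h1] at h; linarith)
  rw [sl_pos, h2, h3, Function.update_self]
  unfold sl
  rw [h2, h3, Function.update_self]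
  rw [h1] at h
  refine ⟨?_, by linarith⟩
  rw [← ENNReal.ofReal_natCast, Nat.cast_sub hj]
  apply ENNReal.ofReal_le_ofReal
  linarith

theorem memoryless {a b : E → V} {β : E → ℝ} (hβ : Wt a b β) (hex : ∃ M, IsPM a b M) (θ : E → ℝ)
    (e : E) : ∫⁻ k, (if 0 < sl a b θ k e then 1 else 0) ∂(Measure.pi fun e => geo (β e)) ≤
      ∫⁻ k, ENNReal.ofReal (β e) * sl a b θ k e ∂(Measure.pi fun e => geo (β e)) := by
  have : ∀ e, IsProbabilityMeasure (geo (β e)) := fun e => geo_prob (hβ.pos e)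
  apply lintegral_le_of_lmarginal_le {e} Measurable.of_discrete Measurable.of_discrete
  intro k
  rw [lmarginal_singleton, lmarginal_singleton]
  exact line_ineq (hβ.pos e) (fun j => sl a b θ (Function.update k e j) e)
    (fun j₁ h j hj => sl_line hβ hex θ k e j₁ h j hj)

theorem Fm_nonneg {a b : E → V} (hex : ∃ M, IsPM a b M) {c : E → ℝ} (hc : ∀ e, 0 ≤ c e) :
    0 ≤ Fm a b c := by
  obtain ⟨M, hM, h⟩ := exists_Fm c hex
  rw [← h]
  exact Finset.sum_nonneg fun e _ => hc e

theorem pointwise {a b : E → V} {β : E → ℝ} (hβ : Wt a b β) (hex : ∃ M, IsPM a b M) {θ : E → ℝ}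
    (hθ : ∀ e, 0 < θ e ∧ θ e < 1) (k : E → ℕ) :
    ENNReal.ofReal (Fm a b (cst θ k)) + ∑ e, ENNReal.ofReal (β e) * sl a b θ k e ≤
      ENNReal.ofReal (∑ e, β e) + ∑ e, ENNReal.ofReal (β e) * (k e : ℝ≥0∞) := by
  have hc : ∀ e, 0 ≤ cst θ k e := fun e => by
    unfold cst
    have := (hθ e).1
    positivity
  have hm := sel_mem hβ (cst θ k)
  have hs : ∀ e, 0 ≤ β e * (cst θ k e - sel a b (cst θ k) e) := fun e =>
    mul_nonneg (hβ.pos e).le (by linarith [hm.1 e])
  have h1 : ∑ e, ENNReal.ofReal (β e) * sl a b θ k e =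
      ENNReal.ofReal (∑ e, β e * (cst θ k e - sel a b (cst θ k) e)) := by
    rw [ENNReal.ofReal_sum_of_nonneg (fun e _ => hs e)]
    apply Finset.sum_congr rfl
    intro e _
    unfold sl
    rw [ENNReal.ofReal_mul (hβ.pos e).le]
  have h2 : ∑ e, ENNReal.ofReal (β e) * (k e : ℝ≥0∞) = ENNReal.ofReal (∑ e, β e * k e) := by
    rw [ENNReal.ofReal_sum_of_nonneg (fun e _ => mul_nonneg (hβ.pos e).le (Nat.cast_nonneg _))]
    apply Finset.sum_congr rfl
    intro e _
    rw [ENNReal.ofReal_mul (hβ.pos e).le, ENNReal.ofReal_natCast]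
  rw [h1, h2, ← ENNReal.ofReal_add (Fm_nonneg hex hc) (Finset.sum_nonneg fun e _ => hs e),
    ← ENNReal.ofReal_add (Finset.sum_nonneg fun e _ => (hβ.pos e).le)
      (Finset.sum_nonneg fun e _ => mul_nonneg (hβ.pos e).le (Nat.cast_nonneg _))]
  apply ENNReal.ofReal_le_ofReal
  have h3 := hβ.hull _ _ hm.2
  have h4 : ∑ e, β e * (cst θ k e - sel a b (cst θ k) e) =
      ∑ e, β e * cst θ k e - ∑ e, β e * sel a b (cst θ k) e := by
    rw [← Finset.sum_sub_distrib]
    apply Finset.sum_congr rfl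
    intro e _
    ring
  have h5 : ∑ e, β e * cst θ k e ≤ ∑ e, β e + ∑ e, β e * k e := by
    rw [← Finset.sum_add_distrib]
    apply Finset.sum_le_sum
    intro e _
    unfold cst
    nlinarith [(hθ e).2, hβ.pos e]
  linarith

theorem sum_beta {a b : E → V} {β : E → ℝ} (hβ : Wt a b β) {n : ℕ}
    (hn : Fintype.card V = 2 * n) : ∑ e, β e ≤ n := by
  have h := hβ.hull (fun _ => -1) (-(n : ℝ)) (fun M hM => by
    have h1 := card_pm hM
    have h2 : M.card = n := by omega
    simp [h2])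
  simp only [mul_neg, mul_one, Finset.sum_neg_distrib] at h
  linarith

/-- expected minimum cost -/
theorem expected {n : ℕ} (hn : Fintype.card V = 2 * n) {a b : E → V} (hl : ∀ e, a e ≠ b e)
    (hcomp : ∀ p q : V, p ≠ q → ∃ e, (a e = p ∧ b e = q) ∨ (a e = q ∧ b e = p)) (r : V)
    {x0 : E → ℝ} (hx0 : Fr a b x0) {β : E → ℝ} (hβ : Wt a b β) (hex : ∃ M, IsPM a b M)
    {θ : E → ℝ} (hθ : ∀ e, 0 < θ e ∧ θ e < 1)
    (hgen : ∀ (q : E → ℚ) (q0 : ℚ), ∑ e, (q e : ℝ) * θ e + q0 = 0 → q = 0) :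
    ∫⁻ k, ENNReal.ofReal (Fm a b (cst θ k)) ∂(Measure.pi fun e => geo (β e)) ≤ 5 * n := by
  have hpr : ∀ e, IsProbabilityMeasure (geo (β e)) := fun e => geo_prob (hβ.pos e)
  obtain ⟨μ, hμ⟩ : ∃ μ : Measure (E → ℕ), μ = Measure.pi fun e => geo (β e) := ⟨_, rfl⟩
  have hprμ : IsProbabilityMeasure μ := by rw [hμ]; infer_instance
  -- number of tight edges
  have htight : ∀ k : E → ℕ, (Fintype.card E : ℝ≥0∞) ≤
      ∑ e, (if 0 < sl a b θ k e then (1 : ℝ≥0∞) else 0) + 4 * n := by
    intro k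
    have h1 := tight_card (by rw [hn]; exact even_two_mul n) hl hcomp r hx0 hβ (c := cst θ k)
      (by
        intro q hq
        apply hgen q (∑ e, q e * k e)
        rw [← hq]
        push_cast
        rw [← Finset.sum_add_distrib]
        apply Finset.sum_congr rfl
        intro e _
        unfold cst
        ring)
    have h2 : (Finset.univ.filter (fun e => sel a b (cst θ k) e = cst θ k e)).card +
        (Finset.univ.filter (fun e => 0 < sl a b θ k e)).card = Fintype.card E := by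
      rw [← Finset.card_univ, ← Finset.card_filter_add_card_filter_not
        (s := (Finset.univ : Finset E)) (fun e => sel a b (cst θ k) e = cst θ k e)]
      congr 2
      ext e
      simp only [Finset.mem_filter, Finset.mem_univ, true_and]
      rw [sl_pos]
      have := (sel_mem hβ (cst θ k)).1 e
      constructor
      · intro h; exact h.ne
      · intro h; exact lt_of_le_of_ne this h
    have h3 : Fintype.card E ≤ (Finset.univ.filter (fun e => 0 < sl a b θ k e)).card + 4 * n := by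
      rw [hn] at h1
      omega
    have h4 : (((Finset.univ.filter (fun e => 0 < sl a b θ k e)).card : ℕ) : ℝ≥0∞) =
        ∑ e, (if 0 < sl a b θ k e then (1 : ℝ≥0∞) else 0) := by
      rw [Finset.card_filter]
      push_cast
      rfl
    rw [← h4]
    exact_mod_cast h3
  have hJ : (Fintype.card E : ℝ≥0∞) ≤
      ∑ e, ∫⁻ k, (if 0 < sl a b θ k e then (1 : ℝ≥0∞) else 0) ∂μ + 4 * n := by
    calc (Fintype.card E : ℝ≥0∞) = ∫⁻ _, (Fintype.card E : ℝ≥0∞) ∂μ := by simp
      _ ≤ ∫⁻ k, (∑ e, (if 0 < sl a b θ k e then (1 : ℝ≥0∞) else 0) + 4 * n) ∂μ :=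
          lintegral_mono htight
      _ = _ := by
          rw [lintegral_add_right _ measurable_const, lintegral_const, measure_univ, mul_one,
            lintegral_finsetSum _ (fun e _ => Measurable.of_discrete)]
  have hfin : ∑ e, ∫⁻ k, (if 0 < sl a b θ k e then (1 : ℝ≥0∞) else 0) ∂μ ≠ ⊤ := by
    apply ne_of_lt
    rw [ENNReal.sum_lt_top]
    intro e _
    calc ∫⁻ k, (if 0 < sl a b θ k e then (1 : ℝ≥0∞) else 0) ∂μ ≤ ∫⁻ _, 1 ∂μ := by
          apply lintegral_mono
          intro k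
          dsimp only
          split_ifs
          · exact le_rfl
          · exact bot_le
      _ = 1 := by simp
      _ < ⊤ := ENNReal.one_lt_top
  have hmean : ∀ e, ENNReal.ofReal (β e) * ∫⁻ k, (k e : ℝ≥0∞) ∂μ = 1 := by
    intro e
    have h1 : ∫⁻ k, (k e : ℝ≥0∞) ∂μ = ∫⁻ j, (j : ℝ≥0∞) ∂(geo (β e)) := by
      rw [hμ]
      exact (measurePreserving_eval (fun e => geo (β e)) e).lintegral_comp
        (f := fun j : ℕ => (j : ℝ≥0∞)) Measurable.of_discrete
    rw [h1, lintegral_geo, tsum_gw_nat (hβ.pos e), ← ENNReal.ofReal_mul (hβ.pos e).le,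
      mul_one_div_cancel (hβ.pos e).ne', ENNReal.ofReal_one]
  have hmain : ∫⁻ k, ENNReal.ofReal (Fm a b (cst θ k)) ∂μ +
      ∑ e, ∫⁻ k, (if 0 < sl a b θ k e then (1 : ℝ≥0∞) else 0) ∂μ ≤ n + Fintype.card E := by
    calc ∫⁻ k, ENNReal.ofReal (Fm a b (cst θ k)) ∂μ +
        ∑ e, ∫⁻ k, (if 0 < sl a b θ k e then (1 : ℝ≥0∞) else 0) ∂μ
        ≤ ∫⁻ k, ENNReal.ofReal (Fm a b (cst θ k)) ∂μ +
          ∑ e, ∫⁻ k, ENNReal.ofReal (β e) * sl a b θ k e ∂μ := by
          refine add_le_add le_rfl (Finset.sum_le_sum fun e _ => ?_)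
          rw [hμ]
          exact memoryless hβ hex θ e
      _ = ∫⁻ k, (ENNReal.ofReal (Fm a b (cst θ k)) +
          ∑ e, ENNReal.ofReal (β e) * sl a b θ k e) ∂μ := by
          rw [lintegral_add_right _ Measurable.of_discrete,
            lintegral_finsetSum _ (fun e _ => Measurable.of_discrete)]
      _ ≤ ∫⁻ k, (ENNReal.ofReal (∑ e, β e) + ∑ e, ENNReal.ofReal (β e) * (k e : ℝ≥0∞)) ∂μ :=
          lintegral_mono (pointwise hβ hex hθ)
      _ = ENNReal.ofReal (∑ e, β e) + ∑ e, ENNReal.ofReal (β e) * ∫⁻ k, (k e : ℝ≥0∞) ∂μ := by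
          rw [lintegral_add_right _ Measurable.of_discrete,
            lintegral_finsetSum _ (fun e _ => Measurable.of_discrete), lintegral_const,
            measure_univ, mul_one]
          congr 1
          apply Finset.sum_congr rfl
          intro e _
          rw [lintegral_const_mul _ Measurable.of_discrete]
      _ ≤ n + Fintype.card E := by
          rw [Finset.sum_congr rfl (fun e _ => hmean e)]
          gcongr
          · rw [← ENNReal.ofReal_natCast]
            exact ENNReal.ofReal_le_ofReal (sum_beta hβ hn)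
          · simp
  have hfinal : ∫⁻ k, ENNReal.ofReal (Fm a b (cst θ k)) ∂μ +
      ∑ e, ∫⁻ k, (if 0 < sl a b θ k e then (1 : ℝ≥0∞) else 0) ∂μ ≤ 5 * n +
      ∑ e, ∫⁻ k, (if 0 < sl a b θ k e then (1 : ℝ≥0∞) else 0) ∂μ := by
    calc _ ≤ (n : ℝ≥0∞) + Fintype.card E := hmain
      _ ≤ n + (∑ e, ∫⁻ k, (if 0 < sl a b θ k e then (1 : ℝ≥0∞) else 0) ∂μ + 4 * n) := by gcongr
      _ = _ := by ring
  rw [← hμ]
  exact (ENNReal.add_le_add_iff_right hfin).1 hfinal

theorem mgf {β : ℝ} (hβ : 0 < β) :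
    ∫⁻ j : ℕ, ENNReal.ofReal ((1 / 2) ^ j) ∂(geo β) ≤ ENNReal.ofReal (2 * β) := by
  rw [lintegral_geo, tsum_geom hβ (by norm_num) (by linarith)]
  apply ENNReal.ofReal_le_ofReal
  rw [div_le_iff₀ (by linarith)]
  nlinarith

open Classical in
/-- lower bound for the weighted number of perfect matchings -/
theorem haf_lower {n : ℕ} (hn1 : 1 ≤ n) (hn : Fintype.card V = 2 * n) {a b : E → V}
    (hl : ∀ e, a e ≠ b e)
    (hcomp : ∀ p q : V, p ≠ q → ∃ e, (a e = p ∧ b e = q) ∨ (a e = q ∧ b e = p))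
    {x0 : E → ℝ} (hx0 : Fr a b x0) {β : E → ℝ} (hβ : Wt a b β) (hex : ∃ M, IsPM a b M)
    {θ : E → ℝ} (hθ : ∀ e, 0 < θ e ∧ θ e < 1)
    (hgen : ∀ (q : E → ℚ) (q0 : ℚ), ∑ e, (q e : ℝ) * θ e + q0 = 0 → q = 0) :
    (1 / 2 : ℝ) ^ (12 * n) ≤
      ∑ M ∈ Finset.univ.filter (fun M : Finset E => IsPM a b M), ∏ e ∈ M, β e := by
  have hpr : ∀ e, IsProbabilityMeasure (geo (β e)) := fun e => geo_prob (hβ.pos e)
  obtain ⟨μ, hμ⟩ : ∃ μ : Measure (E → ℕ), μ = Measure.pi fun e => geo (β e) := ⟨_, rfl⟩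
  have hprμ : IsProbabilityMeasure μ := by rw [hμ]; infer_instance
  have hr : Nonempty V := by
    rw [← Fintype.card_pos_iff, hn]; omega
  obtain ⟨r⟩ := hr
  have hE := expected hn hl hcomp r hx0 hβ hex hθ hgen
  rw [← hμ] at hE
  have hn0 : (n : ℝ≥0∞) ≠ 0 := by
    rw [Nat.cast_ne_zero]; omega
  have hnt : (n : ℝ≥0∞) ≠ ⊤ := ENNReal.natCast_ne_top n
  -- Markov
  have hMk : μ {k | (10 * n : ℝ≥0∞) ≤ ENNReal.ofReal (Fm a b (cst θ k))} ≤ 1 / 2 := by
    have h1 := mul_meas_ge_le_lintegral (μ := μ)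
      (f := fun k => ENNReal.ofReal (Fm a b (cst θ k))) Measurable.of_discrete (10 * n)
    have h2 := h1.trans hE
    rw [mul_comm] at h2
    rw [ENNReal.le_div_iff_mul_le (Or.inl (by norm_num)) (Or.inl (by norm_num))]
    have h3 : μ {k | (10 * n : ℝ≥0∞) ≤ ENNReal.ofReal (Fm a b (cst θ k))} * 2 * (5 * n) ≤
        1 * (5 * n) := by
      rw [one_mul]
      refine le_trans (le_of_eq ?_) h2
      ring
    exact (ENNReal.mul_le_mul_iff_left (mul_ne_zero (by norm_num) hn0)
      (ENNReal.mul_ne_top (by norm_num) hnt)).1 h3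
  have hA : 1 / 2 ≤ μ {k | ENNReal.ofReal (Fm a b (cst θ k)) < 10 * n} := by
    have h1 : (1 : ℝ≥0∞) ≤ μ {k | ENNReal.ofReal (Fm a b (cst θ k)) < 10 * n} +
        μ {k | (10 * n : ℝ≥0∞) ≤ ENNReal.ofReal (Fm a b (cst θ k))} := by
      calc (1 : ℝ≥0∞) = μ Set.univ := measure_univ.symm
        _ ≤ μ ({k | ENNReal.ofReal (Fm a b (cst θ k)) < 10 * n} ∪
            {k | (10 * n : ℝ≥0∞) ≤ ENNReal.ofReal (Fm a b (cst θ k))}) := by
            apply measure_mono
            intro k _
            exact lt_or_ge (ENNReal.ofReal (Fm a b (cst θ k))) (10 * (n : ℝ≥0∞))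
        _ ≤ _ := measure_union_le _ _
    have h2 : (1 : ℝ≥0∞) ≤ μ {k | ENNReal.ofReal (Fm a b (cst θ k)) < 10 * n} + 1 / 2 :=
      h1.trans (add_le_add le_rfl hMk)
    have h3 : (1 / 2 : ℝ≥0∞) + 1 / 2 ≤
        μ {k | ENNReal.ofReal (Fm a b (cst θ k)) < 10 * n} + 1 / 2 := by
      rw [ENNReal.add_halves]
      exact h2
    exact (ENNReal.add_le_add_iff_right (by norm_num)).1 h3
  obtain ⟨P, hP⟩ : ∃ P : Finset (Finset E), P = Finset.univ.filter (fun M => IsPM a b M) := ⟨_, rfl⟩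
  have hind : ∀ k : E → ℕ, {k | ENNReal.ofReal (Fm a b (cst θ k)) < 10 * n}.indicator
      (fun _ => (1 : ℝ≥0∞)) k ≤
      ∑ M ∈ P, (2 : ℝ≥0∞) ^ (10 * n) * ∏ e ∈ M, ENNReal.ofReal ((1 / 2) ^ (k e)) := by
    intro k
    by_cases hk : ENNReal.ofReal (Fm a b (cst θ k)) < 10 * n
    · obtain ⟨M, hM, hMc⟩ := exists_Fm (cst θ k) hex
      have h1 : Fm a b (cst θ k) < 10 * n := by
        have h2 : (10 * n : ℝ≥0∞) = ENNReal.ofReal (10 * n) := by
          rw [ENNReal.ofReal_mul (by norm_num), ENNReal.ofReal_natCast]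
          norm_num
        rw [h2] at hk
        exact (ENNReal.ofReal_lt_ofReal_iff_of_nonneg
          (Fm_nonneg hex (fun e => by unfold cst; have := (hθ e).1; positivity))).1 hk
      have h2 : ∑ e ∈ M, k e ≤ 10 * n := by
        have h3 : ((∑ e ∈ M, k e : ℕ) : ℝ) ≤ ((10 * n : ℕ) : ℝ) := by
          push_cast
          calc ∑ e ∈ M, (k e : ℝ) ≤ ∑ e ∈ M, cst θ k e := by
                apply Finset.sum_le_sum
                intro e _
                unfold cst
                linarith [(hθ e).1]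
            _ ≤ 10 * n := by rw [hMc]; exact h1.le
        exact_mod_cast h3
      have h3 : (1 : ℝ≥0∞) ≤ (2 : ℝ≥0∞) ^ (10 * n) *
          ∏ e ∈ M, ENNReal.ofReal ((1 / 2) ^ (k e)) := by
        rw [← ENNReal.ofReal_prod_of_nonneg (fun e _ => by positivity),
          Finset.prod_pow_eq_pow_sum]
        have h4 : (2 : ℝ≥0∞) ^ (10 * n) = ENNReal.ofReal (2 ^ (10 * n)) := by
          rw [ENNReal.ofReal_pow (by norm_num)]
          norm_num
        rw [h4, ← ENNReal.ofReal_mul (by positivity), ← ENNReal.ofReal_one]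
        apply ENNReal.ofReal_le_ofReal
        calc (1 : ℝ) = 2 ^ (10 * n) * (1 / 2) ^ (10 * n) := by
              rw [← mul_pow]; norm_num
          _ ≤ 2 ^ (10 * n) * (1 / 2) ^ (∑ e ∈ M, k e) := by
              apply mul_le_mul_of_nonneg_left _ (by positivity)
              exact pow_le_pow_of_le_one (by norm_num) (by norm_num) h2
      rw [Set.indicator_of_mem (show k ∈ {k | ENNReal.ofReal (Fm a b (cst θ k)) < 10 * n} from hk)]
      refine h3.trans ?_
      exact Finset.single_le_sum (f := fun M => (2 : ℝ≥0∞) ^ (10 * n) *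
        ∏ e ∈ M, ENNReal.ofReal ((1 / 2) ^ (k e))) (fun _ _ => bot_le)
        (by rw [hP]; simp [hM])
    · rw [Set.indicator_of_notMem (show k ∉ {k | ENNReal.ofReal (Fm a b (cst θ k)) < 10 * n} from hk)]
      exact bot_le
  have hint : μ {k | ENNReal.ofReal (Fm a b (cst θ k)) < 10 * n} ≤
      ∑ M ∈ P, (2 : ℝ≥0∞) ^ (10 * n) * ∏ e ∈ M, ENNReal.ofReal (2 * β e) := by
    calc μ {k | ENNReal.ofReal (Fm a b (cst θ k)) < 10 * n}
        = ∫⁻ k, {k | ENNReal.ofReal (Fm a b (cst θ k)) < 10 * n}.indicator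
            (fun _ => (1 : ℝ≥0∞)) k ∂μ := by
          rw [lintegral_indicator (MeasurableSet.of_discrete), lintegral_const,
            Measure.restrict_apply_univ, one_mul]
      _ ≤ ∫⁻ k, ∑ M ∈ P, (2 : ℝ≥0∞) ^ (10 * n) *
            ∏ e ∈ M, ENNReal.ofReal ((1 / 2) ^ (k e)) ∂μ := lintegral_mono hind
      _ = ∑ M ∈ P, (2 : ℝ≥0∞) ^ (10 * n) *
            ∏ e ∈ M, ∫⁻ k : E → ℕ, ENNReal.ofReal ((1 / 2) ^ (k e)) ∂μ := by
          rw [lintegral_finsetSum _ (fun e _ => Measurable.of_discrete)]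
          apply Finset.sum_congr rfl
          intro M _
          rw [lintegral_const_mul _ Measurable.of_discrete]
          congr 1
          apply ProbabilityTheory.lintegral_prod_eq_prod_lintegral_of_indepFun M
            (fun e (k : E → ℕ) => ENNReal.ofReal ((1 / 2) ^ (k e)))
          · rw [hμ]
            exact ProbabilityTheory.iIndepFun_pi
              (X := fun (_ : E) (j : ℕ) => ENNReal.ofReal ((1 / 2) ^ j))
              (fun e => Measurable.of_discrete.aemeasurable)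
          · intro e
            exact Measurable.of_discrete
      _ ≤ _ := by
          apply Finset.sum_le_sum
          intro M _
          gcongr with e _
          have h1 : ∫⁻ k : E → ℕ, ENNReal.ofReal ((1 / 2) ^ (k e)) ∂μ =
              ∫⁻ j : ℕ, ENNReal.ofReal ((1 / 2) ^ j) ∂(geo (β e)) := by
            rw [hμ]
            exact (measurePreserving_eval (fun e => geo (β e)) e).lintegral_comp
              (f := fun j : ℕ => ENNReal.ofReal ((1 / 2) ^ j)) Measurable.of_discrete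
          rw [h1]
          exact mgf (hβ.pos e)
  have hfin := hA.trans hint
  have hreal : (1 / 2 : ℝ) ≤ ∑ M ∈ P, 2 ^ (10 * n) * ∏ e ∈ M, (2 * β e) := by
    have h1 : (1 / 2 : ℝ≥0∞) = ENNReal.ofReal (1 / 2) := by
      rw [ENNReal.ofReal_div_of_pos (by norm_num)]
      norm_num
    have h2 : ∑ M ∈ P, (2 : ℝ≥0∞) ^ (10 * n) * ∏ e ∈ M, ENNReal.ofReal (2 * β e) =
        ENNReal.ofReal (∑ M ∈ P, 2 ^ (10 * n) * ∏ e ∈ M, (2 * β e)) := by
      have hp : ∀ M : Finset E, 0 ≤ ∏ e ∈ M, (2 * β e) := fun M =>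
        Finset.prod_nonneg fun e _ => mul_nonneg (by norm_num) (hβ.pos e).le
      rw [ENNReal.ofReal_sum_of_nonneg (fun M _ => mul_nonneg (by positivity) (hp M))]
      apply Finset.sum_congr rfl
      intro M _
      rw [ENNReal.ofReal_mul (by positivity), ENNReal.ofReal_pow (by norm_num),
        ENNReal.ofReal_prod_of_nonneg (fun e _ => mul_nonneg (by norm_num) (hβ.pos e).le)]
      norm_num
    rw [h1, h2] at hfin
    refine (ENNReal.ofReal_le_ofReal_iff ?_).1 hfin
    exact Finset.sum_nonneg fun M _ => mul_nonneg (by positivity)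
      (Finset.prod_nonneg fun e _ => mul_nonneg (by norm_num) (hβ.pos e).le)
  have hcard : ∀ M ∈ P, (2 : ℝ) ^ (10 * n) * ∏ e ∈ M, (2 * β e) =
      2 ^ (11 * n) * ∏ e ∈ M, β e := by
    intro M hM
    rw [hP, Finset.mem_filter] at hM
    have h1 := card_pm hM.2
    have h2 : M.card = n := by omega
    rw [Finset.prod_mul_distrib, Finset.prod_const, h2, ← mul_assoc, ← pow_add]
    congr 2
    ring
  rw [Finset.sum_congr rfl hcard, ← Finset.mul_sum, hP] at hreal
  have h5 : (1 / 2 : ℝ) ^ (12 * n) * 2 ^ (11 * n) ≤ 1 / 2 := by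
    have h6 : 12 * n = 11 * n + n := by ring
    rw [h6, pow_add, mul_assoc, mul_comm ((1 / 2 : ℝ) ^ n), ← mul_assoc, ← mul_pow]
    norm_num
    calc (1 / 2 : ℝ) ^ n ≤ (1 / 2) ^ 1 := pow_le_pow_of_le_one (by norm_num) (by norm_num) hn1
      _ = 1 / 2 := by norm_num
  have h7 : (0 : ℝ) < 2 ^ (11 * n) := by positivity
  nlinarith

end Pool.Agent.H249R2.PM
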