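import Pool.Agent.H249R2.PM.Dual

/-! Uncrossing, laminar families and the rank bound. -/

set_option autoImplicit false
set_option linter.unusedSectionVars false

namespace Pool.Agent.H249R2.PM

theorem laminar_card {α : Type} [DecidableEq α] (X : Finset α) :
    ∀ L : Finset (Finset α), (∀ S ∈ L, S ⊆ X ∧ S.Nonempty) →
      (∀ S ∈ L, ∀ T ∈ L, Disjoint S T ∨ S ⊆ T ∨ T ⊆ S) → L.card ≤ 2 * X.card := by
  induction X using Finset.induction with
  | empty =>
    intro L h1 _
    have : L = ∅ := by
      rw [Finset.eq_empty_iff_forall_notMem]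
      intro S hS
      obtain ⟨h2, h3⟩ := h1 S hS
      rw [Finset.subset_empty] at h2
      rw [h2] at h3
      exact Finset.not_nonempty_empty h3
    simp [this]
  | insert x X hx ih =>
    intro L h1 h2
    rw [Finset.card_insert_of_notMem hx]
    let L' : Finset (Finset α) := (L.image (fun S => S.erase x)).erase ∅
    let Lx : Finset (Finset α) := L.filter (fun S => x ∈ S ∧ (S.erase x ∈ L ∨ S = {x}))
    have hL' : L'.card ≤ 2 * X.card := by
      apply ih
      · intro S hS
        rw [Finset.mem_erase, Finset.mem_image] at hS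
        obtain ⟨hne, T, hT, rfl⟩ := hS
        refine ⟨?_, Finset.nonempty_iff_ne_empty.2 hne⟩
        intro y hy
        rw [Finset.mem_erase] at hy
        have := (h1 T hT).1 hy.2
        rw [Finset.mem_insert] at this
        tauto
      · intro S hS T hT
        rw [Finset.mem_erase, Finset.mem_image] at hS hT
        obtain ⟨_, S', hS', rfl⟩ := hS
        obtain ⟨_, T', hT', rfl⟩ := hT
        rcases h2 S' hS' T' hT' with h | h | h
        · left
          exact (h.mono_left (Finset.erase_subset _ _)).mono_right (Finset.erase_subset _ _)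
        · right; left
          exact Finset.erase_subset_erase _ h
        · right; right
          exact Finset.erase_subset_erase _ h
    have hLx : Lx.card ≤ 2 := by
      have hsub : Lx ⊆ {({x} : Finset α)} ∪ (Lx.erase {x}) := by
        intro S hS
        by_cases h : S = {x}
        · rw [h]; simp
        · rw [Finset.mem_union, Finset.mem_erase]
          right
          exact ⟨h, hS⟩
      have h3 : (Lx.erase {x}).card ≤ 1 := by
        rw [Finset.card_le_one]
        have key : ∀ S ∈ Lx.erase {x}, ∀ T ∈ Lx.erase {x}, S ⊆ T → S = T := by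
          intro S hS T hT hST
          rw [Finset.mem_erase, Finset.mem_filter] at hS hT
          obtain ⟨hS1, hS2, hS3, hS4⟩ := hS
          obtain ⟨hT1, hT2, hT3, hT4⟩ := hT
          have hS5 : S.erase x ∈ L := by tauto
          have hT5 : T.erase x ∈ L := by tauto
          obtain ⟨y, hy⟩ := (h1 _ hS5).2
          rw [Finset.mem_erase] at hy
          rcases h2 S hS2 _ hT5 with h | h | h
          · exfalso
            rw [Finset.disjoint_left] at h
            exact h hy.2 (Finset.mem_erase.2 ⟨hy.1, hST hy.2⟩)
          · exfalso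
            exact Finset.notMem_erase x T (h hS3)
          · apply Finset.Subset.antisymm hST
            intro z hz
            by_cases hzx : z = x
            · rw [hzx]; exact hS3
            · exact h (Finset.mem_erase.2 ⟨hzx, hz⟩)
        intro S hS T hT
        have hS' := hS
        have hT' := hT
        rw [Finset.mem_erase, Finset.mem_filter] at hS hT
        rcases h2 S hS.2.1 T hT.2.1 with h | h | h
        · exfalso
          rw [Finset.disjoint_left] at h
          exact h hS.2.2.1 hT.2.2.1
        · exact key S hS' T hT' h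
        · exact (key T hT' S hS' h).symm
      calc Lx.card ≤ ({({x} : Finset α)} ∪ (Lx.erase {x})).card := Finset.card_le_card hsub
        _ ≤ ({({x} : Finset α)} : Finset (Finset α)).card + (Lx.erase {x}).card :=
            Finset.card_union_le _ _
        _ ≤ 2 := by simp; omega
    have hinj : (L \ Lx).card ≤ L'.card := by
      apply Finset.card_le_card_of_injOn (fun S => S.erase x)
      · intro S hS
        rw [Finset.mem_coe, Finset.mem_sdiff, Finset.mem_filter] at hS
        rw [Finset.mem_coe, Finset.mem_erase, Finset.mem_image]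
        refine ⟨?_, S, hS.1, rfl⟩
        intro h
        replace h : S.erase x = ∅ := h
        apply hS.2
        have hxS : x ∈ S := by
          by_contra hcon
          rw [Finset.erase_eq_of_notMem hcon] at h
          have := (h1 S hS.1).2
          rw [h] at this
          exact Finset.not_nonempty_empty this
        refine ⟨hS.1, hxS, Or.inr ?_⟩
        rw [← Finset.insert_erase hxS, h]
        simp
      · intro S hS T hT hST
        simp only at hST
        rw [Finset.mem_coe, Finset.mem_sdiff, Finset.mem_filter] at hS hT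
        by_cases hxS : x ∈ S
        · by_cases hxT : x ∈ T
          · rw [← Finset.insert_erase hxS, ← Finset.insert_erase hxT, hST]
          · exfalso
            apply hS.2
            rw [Finset.erase_eq_of_notMem hxT] at hST
            exact ⟨hS.1, hxS, Or.inl (by rw [hST]; exact hT.1)⟩
        · by_cases hxT : x ∈ T
          · exfalso
            apply hT.2
            rw [Finset.erase_eq_of_notMem hxS] at hST
            exact ⟨hT.1, hxT, Or.inl (by rw [← hST]; exact hS.1)⟩
          · rw [Finset.erase_eq_of_notMem hxS, Finset.erase_eq_of_notMem hxT] at hST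
            exact hST
    have h4 : L.card ≤ (L \ Lx).card + Lx.card := by
      calc L.card ≤ ((L \ Lx) ∪ Lx).card := by
            apply Finset.card_le_card
            intro S hS
            by_cases h : S ∈ Lx
            · exact Finset.mem_union_right _ h
            · exact Finset.mem_union_left _ (Finset.mem_sdiff.2 ⟨hS, h⟩)
        _ ≤ _ := Finset.card_union_le _ _
    omega

variable {V E : Type} [Fintype V] [DecidableEq V] [Fintype E] [DecidableEq E]

theorem wv_single {a b : E → V} {r : V} (T : OddT r) (e : E) :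
    wv a b r (Pi.single T 1) e = ci a b T.1 e := by
  unfold wv
  simp [Pi.single_apply]

theorem wv_add {a b : E → V} {r : V} (u v : OddT r → ℝ) (e : E) :
    wv a b r (u + v) e = wv a b r u e + wv a b r v e := by
  unfold wv
  rw [← Finset.sum_add_distrib]
  apply Finset.sum_congr rfl
  intro T _
  simp only [Pi.add_apply]
  ring

theorem wv_smul {a b : E → V} {r : V} (k : ℝ) (u : OddT r → ℝ) (e : E) :
    wv a b r (k • u) e = k * wv a b r u e := by
  unfold wv
  rw [Finset.mul_sum]
  apply Finset.sum_congr rfl
  intro T _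
  simp only [Pi.smul_apply, smul_eq_mul]
  ring

/-- one uncrossing step is impossible for Pareto-minimal cost vectors -/
theorem no_step {a b : E → V} {r : V} {w : E → ℝ} {F : ℝ}
    (hmin : ∀ w' : E → ℝ, (∀ e, w' e ≤ w e) → (∀ M, IsPM a b M → F ≤ ∑ e ∈ M, w' e) → w' = w)
    {u : OddT r → ℝ} (hu : ∀ T, Nt T.1 → 0 ≤ u T) (huw : ∀ e, wv a b r u e = w e)
    (huF : F ≤ ∑ T, u T) {S T A B : OddT r} (hST : S ≠ T) (hS : 0 < u S) (hT : 0 < u T)
    (hci : ∀ e, ci a b A.1 e + ci a b B.1 e ≤ ci a b S.1 e + ci a b T.1 e) (e0 : E)
    (he0 : ci a b A.1 e0 + ci a b B.1 e0 < ci a b S.1 e0 + ci a b T.1 e0) : False := by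
  classical
  obtain ⟨δ, hδ⟩ : ∃ δ : ℝ, δ = min (u S) (u T) := ⟨_, rfl⟩
  have hδ0 : 0 < δ := by rw [hδ]; exact lt_min hS hT
  have hδS : δ ≤ u S := by rw [hδ]; exact min_le_left _ _
  have hδT : δ ≤ u T := by rw [hδ]; exact min_le_right _ _
  let u' : OddT r → ℝ := u + (δ • Pi.single A 1 + (δ • Pi.single B 1 +
    ((-δ) • Pi.single S 1 + (-δ) • Pi.single T 1)))
  have hw' : ∀ e, wv a b r u' e = w e - δ * ((ci a b S.1 e + ci a b T.1 e) -
      (ci a b A.1 e + ci a b B.1 e)) := by
    intro e
    simp only [u', wv_add, wv_smul, wv_single, huw]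
    ring
  have hsum : ∑ X, u' X = ∑ X, u X := by
    simp only [u', Pi.add_apply, Pi.smul_apply, smul_eq_mul, Finset.sum_add_distrib,
      ← Finset.mul_sum, Pi.single_apply]
    simp
  have hpos : ∀ X, Nt X.1 → 0 ≤ u' X := by
    intro X hX
    have h0 := hu X hX
    simp only [u', Pi.add_apply, Pi.smul_apply, smul_eq_mul, Pi.single_apply]
    by_cases h1 : X = S
    · have h2 : X ≠ T := by rw [h1]; exact hST
      rw [if_pos h1, if_neg h2]
      have h3 : δ ≤ u X := by rw [h1]; exact hδS
      split_ifs <;> nlinarith
    · by_cases h2 : X = T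
      · rw [if_neg h1, if_pos h2]
        have h3 : δ ≤ u X := by rw [h2]; exact hδT
        split_ifs <;> nlinarith
      · rw [if_neg h1, if_neg h2]
        split_ifs <;> nlinarith
  have heq := hmin (wv a b r u') (fun e => by
      rw [hw']
      have := hci e
      nlinarith) (fun M hM => huF.trans (by rw [← hsum]; exact weak hpos hM))
  have h1 := hw' e0
  rw [heq] at h1
  nlinarith

/-- the rank bound: a Pareto-minimal cost vector is a combination of few cut vectors -/
theorem rank_bound (hV : Even (Fintype.card V)) {a b : E → V} (hl : ∀ e, a e ≠ b e)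
    (hcomp : ∀ p q : V, p ≠ q → ∃ e, (a e = p ∧ b e = q) ∨ (a e = q ∧ b e = p)) (r : V)
    {x0 : E → ℝ} (hx0 : Fr a b x0) {w : E → ℝ} {F : ℝ}
    (hF : ∀ M, IsPM a b M → F ≤ ∑ e ∈ M, w e)
    (hmin : ∀ w' : E → ℝ, (∀ e, w' e ≤ w e) → (∀ M, IsPM a b M → F ≤ ∑ e ∈ M, w' e) → w' = w) :
    ∃ (L : Finset (Finset V)) (u : Finset V → ℝ), L.card ≤ 2 * Fintype.card V ∧
      ∀ e, w e = ∑ T ∈ L, u T * ci a b T e := by
  classical
  obtain ⟨u, hu, huw', huF⟩ := strong hV hl r hx0 hF
  have huw : ∀ e, wv a b r u e = w e := by
    have := hmin (wv a b r u) huw' (fun M hM => huF.trans (weak hu hM))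
    intro e
    rw [this]
  let L0 : Finset (OddT r) := Finset.univ.filter (fun T => ¬ Nt T.1 ∨ u T ≠ 0)
  have hpos : ∀ T ∈ L0, Nt T.1 → 0 < u T := by
    intro T hT hN
    rw [Finset.mem_filter] at hT
    have h1 : u T ≠ 0 := by tauto
    exact lt_of_le_of_ne (hu T hN) (Ne.symm h1)
  refine ⟨L0.image Subtype.val, fun T => if h : Odd T.card ∧ r ∉ T then u ⟨T, h⟩ else 0, ?_, ?_⟩
  · rw [← Finset.card_univ]
    apply laminar_card
    · intro S hS
      rw [Finset.mem_image] at hS
      obtain ⟨T, _, rfl⟩ := hS
      exact ⟨Finset.subset_univ _, Finset.card_pos.1 T.2.1.pos⟩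
    · intro S' hS' T' hT'
      rw [Finset.mem_image] at hS' hT'
      obtain ⟨S, hS, rfl⟩ := hS'
      obtain ⟨T, hT, rfl⟩ := hT'
      -- trivial sets cross nothing
      have triv : ∀ S T : OddT r, ¬ Nt S.1 → Disjoint S.1 T.1 ∨ S.1 ⊆ T.1 ∨ T.1 ⊆ S.1 := by
        intro S T hN
        unfold Nt at hN
        by_cases h1 : S.1.card = 1
        · obtain ⟨v, hv⟩ := Finset.card_eq_one.1 h1
          rw [hv]
          by_cases hvT : v ∈ T.1
          · right; left
            exact Finset.singleton_subset_iff.2 hvT
          · left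
            exact Finset.disjoint_singleton_left.2 hvT
        · have h2 : S.1.card + 1 = Fintype.card V := by
            by_contra h
            exact hN ⟨h1, h⟩
          have h3 : S.1ᶜ = {r} := by
            have h4 : S.1ᶜ.card = 1 := by
              rw [Finset.card_compl]; omega
            obtain ⟨v, hv⟩ := Finset.card_eq_one.1 h4
            have h5 : r ∈ S.1ᶜ := Finset.mem_compl.2 S.2.2
            rw [hv, Finset.mem_singleton] at h5
            rw [hv, h5]
          right; right
          intro z hz
          by_contra hcon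
          have h5 : z ∈ S.1ᶜ := Finset.mem_compl.2 hcon
          rw [h3, Finset.mem_singleton] at h5
          rw [h5] at hz
          exact T.2.2 hz
      by_cases hNS : Nt S.1
      swap
      · exact triv S T hNS
      by_cases hNT : Nt T.1
      swap
      · rcases triv T S hNT with h | h | h
        · exact Or.inl h.symm
        · exact Or.inr (Or.inr h)
        · exact Or.inr (Or.inl h)
      by_contra hcon
      push Not at hcon
      obtain ⟨hc1, hc2, hc3⟩ := hcon
      have hST : S ≠ T := by
        rintro rfl
        exact hc2 (Finset.Subset.refl _)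
      have hS0 := hpos S hS hNS
      have hT0 := hpos T hT hNT
      rw [Finset.not_disjoint_iff] at hc1
      obtain ⟨z, hz1, hz2⟩ := hc1
      rw [Finset.not_subset] at hc2 hc3
      obtain ⟨p, hp1, hp2⟩ := hc2
      obtain ⟨q, hq1, hq2⟩ := hc3
      have hcard : (S.1 ∩ T.1).card + (S.1 ∪ T.1).card = S.1.card + T.1.card := by
        rw [add_comm, Finset.card_union_add_card_inter]
      rcases Nat.even_or_odd (S.1 ∩ T.1).card with hpar | hpar
      · -- even intersection
        have hA : Odd (S.1 \ T.1).card := by
          have h1 := Finset.card_sdiff_add_card_inter S.1 T.1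
          obtain ⟨k, hk⟩ := hpar
          obtain ⟨l, hl'⟩ := S.2.1
          exact ⟨l - k, by omega⟩
        have hB : Odd (T.1 \ S.1).card := by
          have h1 := Finset.card_sdiff_add_card_inter T.1 S.1
          rw [Finset.inter_comm] at h1
          obtain ⟨k, hk⟩ := hpar
          obtain ⟨l, hl'⟩ := T.2.1
          exact ⟨l - k, by omega⟩
        have hzr : z ≠ r := by
          rintro rfl
          exact S.2.2 hz1
        obtain ⟨e0, he0⟩ := hcomp z r hzr
        refine no_step hmin hu huw huF (S := S) (T := T)
          (A := ⟨S.1 \ T.1, hA, fun h => S.2.2 (Finset.mem_sdiff.1 h).1⟩)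
          (B := ⟨T.1 \ S.1, hB, fun h => T.2.2 (Finset.mem_sdiff.1 h).1⟩) hST hS0 hT0 ?_ e0 ?_
        · intro e
          simp only [ci, Cr, Finset.mem_sdiff]
          by_cases h1 : a e ∈ S.1 <;> by_cases h2 : a e ∈ T.1 <;> by_cases h3 : b e ∈ S.1 <;>
            by_cases h4 : b e ∈ T.1 <;> simp [h1, h2, h3, h4]
        · have hrS := S.2.2
          have hrT := T.2.2
          rcases he0 with ⟨h1, h2⟩ | ⟨h1, h2⟩ <;>
            simp [ci, Cr, h1, h2, hz1, hz2, hrS, hrT]
      · have hB : Odd (S.1 ∪ T.1).card := by
          obtain ⟨k, hk⟩ := hpar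
          obtain ⟨l, hl'⟩ := S.2.1
          obtain ⟨m, hm⟩ := T.2.1
          exact ⟨l + m - k, by omega⟩
        have hpq : p ≠ q := by
          rintro rfl
          exact hp2 hq1
        obtain ⟨e0, he0⟩ := hcomp p q hpq
        refine no_step hmin hu huw huF (S := S) (T := T)
          (A := ⟨S.1 ∩ T.1, hpar, fun h => S.2.2 (Finset.mem_inter.1 h).1⟩)
          (B := ⟨S.1 ∪ T.1, hB, fun h => by
            rcases Finset.mem_union.1 h with h | h
            · exact S.2.2 h
            · exact T.2.2 h⟩) hST hS0 hT0 ?_ e0 ?_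
        · intro e
          simp only [ci, Cr, Finset.mem_inter, Finset.mem_union]
          by_cases h1 : a e ∈ S.1 <;> by_cases h2 : a e ∈ T.1 <;> by_cases h3 : b e ∈ S.1 <;>
            by_cases h4 : b e ∈ T.1 <;> simp [h1, h2, h3, h4]
        · rcases he0 with ⟨h1, h2⟩ | ⟨h1, h2⟩ <;>
            simp [ci, Cr, h1, h2, hp1, hp2, hq1, hq2]
  · intro e
    rw [← huw e]
    rw [Finset.sum_image (fun x _ y _ h => Subtype.ext h)]
    unfold wv
    have h1 : ∀ T : OddT r, (if h : Odd T.1.card ∧ r ∉ T.1 then u ⟨T.1, h⟩ else 0) = u T := by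
      intro T
      rw [dif_pos T.2]
    simp only [h1]
    symm
    apply Finset.sum_subset (Finset.subset_univ L0)
    intro T _ hT
    rw [Finset.mem_filter] at hT
    have : u T = 0 := by
      by_contra h
      exact hT ⟨Finset.mem_univ _, Or.inr h⟩
    rw [this, zero_mul]

end Pool.Agent.H249R2.PM
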