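import Pool.Agent.H249R2.PM.Basic

/-! Edmonds' perfect matching polytope theorem in the form: every fractional perfect matching with
odd cut inequalities can be rounded to a perfect matching of no larger cost. -/

set_option autoImplicit false
set_option linter.unusedSectionVars false

namespace Pool.Agent.H249R2.PM

variable {V E : Type} [Fintype V] [DecidableEq V] [Fintype E] [DecidableEq E]

/-- contraction of the complement of `U` to a point -/
def ct (U : Finset V) (v : V) : Option {v // v ∈ U} := if h : v ∈ U then some ⟨v, h⟩ else none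

theorem ct_of_mem {U : Finset V} {v : V} (h : v ∈ U) : ct U v = some ⟨v, h⟩ := by
  simp [ct, h]

theorem ct_of_notMem {U : Finset V} {v : V} (h : v ∉ U) : ct U v = none := by
  simp [ct, h]

theorem ct_eq_some {U : Finset V} {v : V} {w : {v // v ∈ U}} : ct U v = some w ↔ v = w.1 := by
  unfold ct
  split_ifs with h
  · rw [Option.some.injEq, Subtype.ext_iff]
  · constructor
    · intro h'
      exact absurd h' (by simp)
    · rintro rfl
      exact absurd w.2 h

theorem ct_eq_none {U : Finset V} {v : V} : ct U v = none ↔ v ∉ U := by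
  unfold ct
  split_ifs with h <;> simp [h]

theorem Cr_ct {a b : E → V} {U : Finset V} {S : Finset (Option {v // v ∈ U})} {e : E} :
    Cr (ct U ∘ a) (ct U ∘ b) S e ↔ Cr a b (Finset.univ.filter (fun v => ct U v ∈ S)) e := by
  simp [Cr]

theorem Cr_ct_some {a b : E → V} {U : Finset V} {v : {v // v ∈ U}} {e : E} :
    Cr (ct U ∘ a) (ct U ∘ b) {some v} e ↔ Cr a b {v.1} e := by
  simp [Cr, ct_eq_some]

theorem Cr_ct_none {a b : E → V} {U : Finset V} {e : E} :
    Cr (ct U ∘ a) (ct U ∘ b) {none} e ↔ Cr a b U e := by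
  simp only [Cr, Function.comp_apply, Finset.mem_singleton, ct_eq_none]
  tauto

theorem card_fibre (U : Finset V) (S : Finset (Option {v // v ∈ U})) :
    (Finset.univ.filter (fun v => ct U v ∈ S)).card =
      (if none ∈ S then Uᶜ.card else 0) + ∑ v : {v // v ∈ U}, if some v ∈ S then 1 else 0 := by
  rw [Finset.card_filter, ← Finset.sum_add_sum_compl U, add_comm]
  congr 1
  · rw [Finset.sum_congr rfl (g := fun _ => if none ∈ S then 1 else 0)]
    · split_ifs <;> simp
    · intro v hv
      rw [ct_of_notMem (Finset.mem_compl.1 hv)]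
  · rw [← Finset.sum_coe_sort]
    apply Finset.sum_congr rfl
    intro v _
    rw [ct_of_mem v.2]

theorem card_opt {W : Type} [Fintype W] [DecidableEq W] (S : Finset (Option W)) :
    S.card = (if none ∈ S then 1 else 0) + ∑ v : W, if some v ∈ S then 1 else 0 := by
  have h : S = Finset.univ.filter (fun v => v ∈ S) := by
    ext v; simp
  conv_lhs => rw [h]
  rw [Finset.card_filter, Fintype.sum_option]

theorem cut_ct {a b : E → V} {U : Finset V} {S : Finset (Option {v // v ∈ U})} {x : E → ℝ} :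
    cut (ct U ∘ a) (ct U ∘ b) x S = cut a b x (Finset.univ.filter (fun v => ct U v ∈ S)) := by
  unfold cut
  congr 1
  ext e
  simp only [Finset.mem_filter, Finset.mem_univ, true_and]
  exact Cr_ct

theorem Fr.contr {a b : E → V} {x : E → ℝ} (hV : Even (Fintype.card V)) (hx : Fr a b x)
    (U : Finset V) (hU : Odd U.card) (ht : cut a b x U = 1) :
    Fr (ct U ∘ a) (ct U ∘ b) x := by
  refine ⟨hx.nonneg, ?_, ?_⟩
  · intro v
    rcases v with _ | v
    · rw [← ht]
      unfold cut
      congr 1
      ext e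
      simp only [Finset.mem_filter, Finset.mem_univ, true_and]
      exact Cr_ct_none
    · rw [← hx.deg v.1]
      unfold cut
      congr 1
      ext e
      simp only [Finset.mem_filter, Finset.mem_univ, true_and]
      exact Cr_ct_some
  · intro S hS
    rw [cut_ct]
    apply hx.odd
    rw [card_fibre]
    rw [card_opt] at hS
    have hUc : Odd Uᶜ.card := by
      rw [Finset.card_compl]
      have h1 : U.card ≤ Fintype.card V := Finset.card_le_univ U
      obtain ⟨p, hp⟩ := hU
      obtain ⟨q, hq⟩ := hV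
      exact ⟨q - p - 1, by omega⟩
    by_cases hn : none ∈ S
    · rw [if_pos hn] at hS ⊢
      obtain ⟨p, hp⟩ := hUc
      obtain ⟨q, hq⟩ := hS
      exact ⟨p + q, by omega⟩
    · rw [if_neg hn] at hS ⊢
      exact hS

theorem IsPM.unique_cut {a b : E → V} {U : Finset V} {M : Finset E}
    (hM : IsPM (ct U ∘ a) (ct U ∘ b) M) {e f : E} (he : e ∈ M) (hf : f ∈ M)
    (hce : Cr a b U e) (hcf : Cr a b U f) : e = f := by
  have h := hM.deg none
  rw [Finset.card_eq_one] at h
  obtain ⟨g, hg⟩ := h
  have h1 : e ∈ ({g} : Finset E) := by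
    rw [← hg, Finset.mem_filter]
    exact ⟨he, Cr_ct_none.2 hce⟩
  have h2 : f ∈ ({g} : Finset E) := by
    rw [← hg, Finset.mem_filter]
    exact ⟨hf, Cr_ct_none.2 hcf⟩
  rw [Finset.mem_singleton] at h1 h2
  rw [h1, h2]

theorem IsPM.exists_cut {a b : E → V} {U : Finset V} {M : Finset E}
    (hM : IsPM (ct U ∘ a) (ct U ∘ b) M) : ∃ e ∈ M, Cr a b U e := by
  have h := hM.deg none
  rw [Finset.card_eq_one] at h
  obtain ⟨g, hg⟩ := h
  have h1 : g ∈ M.filter (Cr (ct U ∘ a) (ct U ∘ b) {none}) := by
    rw [hg]; simp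
  rw [Finset.mem_filter] at h1
  exact ⟨g, h1.1, Cr_ct_none.1 h1.2⟩

theorem IsPM.end_mem {a b : E → V} {U : Finset V} {M : Finset E}
    (hM : IsPM (ct U ∘ a) (ct U ∘ b) M) {e : E} (he : e ∈ M) : a e ∈ U ∨ b e ∈ U := by
  by_contra hcon
  push Not at hcon
  apply hM.noloop e he
  simp [ct_of_notMem hcon.1, ct_of_notMem hcon.2]

theorem IsPM.ne {a b : E → V} {U : Finset V} {M : Finset E}
    (hM : IsPM (ct U ∘ a) (ct U ∘ b) M) {e : E} (he : e ∈ M) : a e ≠ b e := by
  intro h
  apply hM.noloop e he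
  simp [h]

/-- gluing perfect matchings of the two contractions along a common cut edge -/
theorem glue {a b : E → V} {U : Finset V} {M N : Finset E}
    (hM : IsPM (ct U ∘ a) (ct U ∘ b) M) (hN : IsPM (ct Uᶜ ∘ a) (ct Uᶜ ∘ b) N) {e : E}
    (heM : e ∈ M) (heN : e ∈ N) (hc : Cr a b U e) :
    IsPM a b (M ∪ N) ∧ Disjoint M (N.erase e) := by
  have hMN : ∀ f ∈ M, f ∈ N → f = e := by
    intro f hf hf'
    have h1 := hM.end_mem hf
    have h2 := hN.end_mem hf'
    simp only [Finset.mem_compl] at h2
    apply hM.unique_cut hf heM _ hc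
    unfold Cr
    tauto
  refine ⟨⟨?_, ?_⟩, ?_⟩
  · intro f hf
    rcases Finset.mem_union.1 hf with h | h
    · exact hM.ne h
    · exact hN.ne h
  · intro v
    by_cases hv : v ∈ U
    · rw [← hM.deg (some ⟨v, hv⟩)]
      congr 1
      ext f
      simp only [Finset.mem_filter, Finset.mem_union, Cr_ct_some]
      constructor
      · rintro ⟨h | h, h'⟩
        · exact ⟨h, h'⟩
        · refine ⟨?_, h'⟩
          have h2 := hN.end_mem h
          simp only [Finset.mem_compl] at h2
          have h3 : Cr a b U f := by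
            rw [Cr_singleton] at h'
            unfold Cr
            by_cases h4 : a f = v
            · have h5 : a f ∈ U := by rw [h4]; exact hv
              tauto
            · have h5 : b f = v := by tauto
              have h6 : b f ∈ U := by rw [h5]; exact hv
              tauto
          have h4 : f = e := hN.unique_cut h heN (Cr_compl.2 h3) (Cr_compl.2 hc)
          rw [h4]
          exact heM
      · rintro ⟨h, h'⟩
        exact ⟨Or.inl h, h'⟩
    · have hv' : v ∈ Uᶜ := Finset.mem_compl.2 hv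
      rw [← hN.deg (some ⟨v, hv'⟩)]
      congr 1
      ext f
      simp only [Finset.mem_filter, Finset.mem_union, Cr_ct_some]
      constructor
      · rintro ⟨h | h, h'⟩
        · refine ⟨?_, h'⟩
          have h2 := hM.end_mem h
          have h3 : Cr a b U f := by
            rw [Cr_singleton] at h'
            unfold Cr
            by_cases h4 : a f = v
            · have h5 : a f ∉ U := by rw [h4]; exact hv
              tauto
            · have h5 : b f = v := by tauto
              have h6 : b f ∉ U := by rw [h5]; exact hv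
              tauto
          have h4 : f = e := hM.unique_cut h heM h3 hc
          rw [h4]
          exact heN
        · exact ⟨h, h'⟩
      · rintro ⟨h, h'⟩
        exact ⟨Or.inr h, h'⟩
  · rw [Finset.disjoint_left]
    intro f hf hf'
    rw [Finset.mem_erase] at hf'
    exact hf'.1 (hMN f hf hf'.2)

/-- the compact set of fractional perfect matchings supported on the non-loops of `P` -/
def KK (a b : E → V) (P : Finset E) : Set (E → ℝ) :=
  {y | Fr a b y ∧ (∀ e, a e = b e → y e = 0) ∧ ∀ e, e ∉ P → y e = 0}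

theorem continuous_cut (a b : E → V) (S : Finset V) : Continuous (fun y : E → ℝ => cut a b y S) := by
  unfold cut
  fun_prop

theorem Fr.le_one {a b : E → V} {y : E → ℝ} (hy : Fr a b y) {e : E} (he : a e ≠ b e) : y e ≤ 1 := by
  rw [← hy.deg (a e)]
  unfold cut
  apply Finset.single_le_sum (fun f _ => hy.nonneg f)
  rw [Finset.mem_filter]
  refine ⟨Finset.mem_univ _, ?_⟩
  rw [Cr_singleton]
  simp [he.symm]

theorem isCompact_KK (a b : E → V) (P : Finset E) : IsCompact (KK a b P) := by
  have hsub : KK a b P ⊆ Set.pi Set.univ (fun _ => Set.Icc (0 : ℝ) 1) := by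
    rintro y ⟨h1, h2, _⟩ e _
    refine ⟨h1.nonneg e, ?_⟩
    by_cases he : a e = b e
    · rw [h2 e he]; norm_num
    · exact h1.le_one he
  apply IsCompact.of_isClosed_subset (isCompact_univ_pi fun _ => isCompact_Icc) _ hsub
  have h : KK a b P = (⋂ e, {y : E → ℝ | 0 ≤ y e}) ∩ (⋂ v, {y : E → ℝ | cut a b y {v} = 1}) ∩
      (⋂ S : Finset V, ⋂ _ : Odd S.card, {y : E → ℝ | 1 ≤ cut a b y S}) ∩
      (⋂ e, ⋂ _ : a e = b e, {y : E → ℝ | y e = 0}) ∩ (⋂ e, ⋂ _ : e ∉ P, {y : E → ℝ | y e = 0}) := by
    ext y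
    simp only [Set.mem_inter_iff, Set.mem_iInter]
    constructor
    · rintro ⟨h1, h2, h3⟩
      exact ⟨⟨⟨⟨h1.nonneg, h1.deg⟩, h1.odd⟩, h2⟩, h3⟩
    · rintro ⟨⟨⟨⟨h1, h2⟩, h3⟩, h4⟩, h5⟩
      exact ⟨⟨h1, h2, h3⟩, h4, h5⟩
  rw [h]
  refine (((IsClosed.inter ?_ ?_).inter ?_).inter ?_).inter ?_
  · exact isClosed_iInter fun e => isClosed_le continuous_const (continuous_apply e)
  · exact isClosed_iInter fun v => isClosed_eq (continuous_cut a b {v}) continuous_const
  · exact isClosed_iInter fun S => isClosed_iInter fun _ =>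
      isClosed_le continuous_const (continuous_cut a b S)
  · exact isClosed_iInter fun e => isClosed_iInter fun _ =>
      isClosed_eq (continuous_apply e) continuous_const
  · exact isClosed_iInter fun e => isClosed_iInter fun _ =>
      isClosed_eq (continuous_apply e) continuous_const

theorem ev_small (k r : ℝ) (hr : 0 < r) : ∀ᶠ t in nhdsWithin (0 : ℝ) (Set.Ioi 0), t * k < r := by
  have h : Filter.Tendsto (fun t : ℝ => t * k) (nhds 0) (nhds 0) := by
    have : Continuous (fun t : ℝ => t * k) := by fun_prop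
    exact this.tendsto' 0 0 (by simp)
  exact (h.eventually_lt_const hr).filter_mono nhdsWithin_le_nhds

/-- at a minimiser, a more expensive perfect matching of the support crosses some tight odd cut
more than once -/
theorem exists_tight {a b : E → V} {P : Finset E} {y c : E → ℝ} (hy : y ∈ KK a b P)
    (hmin : ∀ z ∈ KK a b P, ∑ e, c e * y e ≤ ∑ e, c e * z e) {M : Finset E} (hM : IsPM a b M)
    (hMy : ∀ e ∈ M, 0 < y e) (hc : ∑ e, c e * y e < ∑ e ∈ M, c e) :
    ∃ U : Finset V, Odd U.card ∧ cut a b y U = 1 ∧ 2 ≤ (M.filter (Cr a b U)).card := by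
  classical
  by_contra hcon
  push Not at hcon
  have hev1 : ∀ᶠ t in nhdsWithin (0 : ℝ) (Set.Ioi 0), ∀ e ∈ M, t * 1 < y e := by
    rw [Filter.eventually_all_finset]
    intro e he
    exact ev_small 1 (y e) (hMy e he)
  have hev2 : ∀ᶠ t in nhdsWithin (0 : ℝ) (Set.Ioi 0), ∀ S : Finset V, Odd S.card →
      1 < cut a b y S → t * (((M.filter (Cr a b S)).card : ℝ) - 1) < cut a b y S - 1 := by
    rw [Filter.eventually_all]
    intro S
    by_cases h : Odd S.card ∧ 1 < cut a b y S
    · filter_upwards [ev_small (((M.filter (Cr a b S)).card : ℝ) - 1) (cut a b y S - 1)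
        (by linarith [h.2])] with t ht _ _
      exact ht
    · filter_upwards with t h1 h2
      exact absurd ⟨h1, h2⟩ h
  have hev3 := ev_small 1 1 one_pos
  obtain ⟨t, ⟨⟨ht1, ht2⟩, ht3⟩, ht0⟩ :=
    (((hev1.and hev2).and hev3).and self_mem_nhdsWithin).exists
  have ht0' : 0 < t := ht0
  have h1t : 0 < 1 - t := by linarith
  let χ : E → ℝ := fun e => if e ∈ M then 1 else 0
  let z : E → ℝ := fun e => (y e - t * χ e) / (1 - t)
  have hcutz : ∀ S, cut a b z S = (cut a b y S - t * ((M.filter (Cr a b S)).card : ℝ)) / (1 - t) := by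
    intro S
    unfold cut
    rw [← Finset.sum_div, Finset.sum_sub_distrib, ← Finset.mul_sum]
    congr 3
    simp only [χ]
    rw [Finset.sum_ite_mem, Finset.sum_const, nsmul_eq_mul, mul_one]
    congr 2
    ext e
    simp [and_comm]
  have hz : z ∈ KK a b P := by
    refine ⟨⟨?_, ?_, ?_⟩, ?_, ?_⟩
    · intro e
      apply div_nonneg _ h1t.le
      by_cases he : e ∈ M
      · have := ht1 e he
        simp only [χ, if_pos he]
        linarith
      · simp only [χ, if_neg he]
        have := hy.1.nonneg e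
        linarith
    · intro v
      rw [hcutz, hy.1.deg, hM.deg]
      field_simp
      norm_num
    · intro S hS
      rw [hcutz, le_div_iff₀ h1t]
      have h1 := hy.1.odd S hS
      rcases h1.eq_or_lt with h2 | h2
      · have h3 := hcon S hS h2.symm
        have h4 : ((M.filter (Cr a b S)).card : ℝ) ≤ 1 := by
          have : (M.filter (Cr a b S)).card ≤ 1 := by omega
          exact_mod_cast this
        nlinarith
      · have := ht2 S hS h2
        nlinarith
    · intro e he
      have h1 : e ∉ M := fun h => hM.noloop e h he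
      simp only [z, χ, if_neg h1, hy.2.1 e he]
      simp
    · intro e he
      have h1 : e ∉ M := fun h => by
        have := hMy e h
        rw [hy.2.2 e he] at this
        exact lt_irrefl _ this
      simp only [z, χ, if_neg h1, hy.2.2 e he]
      simp
  have h1 := hmin z hz
  have h2 : ∑ e, c e * z e = (∑ e, c e * y e - t * ∑ e ∈ M, c e) / (1 - t) := by
    have : ∀ e, c e * z e = (c e * y e - t * (if e ∈ M then c e else 0)) / (1 - t) := by
      intro e
      simp only [z, χ]
      split_ifs <;> ring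
    rw [Finset.sum_congr rfl (fun e _ => this e), ← Finset.sum_div, Finset.sum_sub_distrib,
      ← Finset.mul_sum, Finset.sum_ite_mem, Finset.univ_inter]
  rw [h2, le_div_iff₀ h1t] at h1
  nlinarith

theorem Cr_iff_ne {a b : E → V} {U : Finset V} {e : E} (h : Cr a b U e) :
    (ct U ∘ a) e ≠ (ct U ∘ b) e := by
  intro h'
  simp only [Function.comp_apply] at h'
  apply h
  constructor
  · intro h1
    rw [ct_of_mem h1] at h'
    have := ct_eq_some.1 h'.symm
    rw [this]
    exact h1
  · intro h1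
    rw [ct_of_mem h1] at h'
    have := ct_eq_some.1 h'
    rw [this]
    exact h1

theorem not_Cr_iff {a b : E → V} {U : Finset V} {e : E} (h : ¬ Cr a b U e) :
    ((ct U ∘ a) e ≠ (ct U ∘ b) e) ↔ (a e ∈ U ∧ a e ≠ b e) := by
  unfold Cr at h
  rw [not_not] at h
  simp only [Function.comp_apply]
  by_cases h1 : a e ∈ U
  · have h2 : b e ∈ U := h.1 h1
    rw [ct_of_mem h1, ct_of_mem h2]
    simp [h1]
  · have h2 : b e ∉ U := fun h' => h1 (h.2 h')
    rw [ct_of_notMem h1, ct_of_notMem h2]
    simp [h1]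

/-- **Edmonds' theorem**, rounding form. -/
theorem round : ∀ (N : ℕ) (V : Type) [Fintype V] [DecidableEq V], Fintype.card V = N → Even N →
    ∀ (a b : E → V) (x c : E → ℝ), Fr a b x →
      ∃ M, IsPM a b M ∧ (∀ e ∈ M, 0 < x e) ∧
        ∑ e ∈ M, c e ≤ ∑ e ∈ Finset.univ.filter (fun e => a e ≠ b e), c e * x e := by
  intro N
  induction N using Nat.strong_induction_on with
  | _ N ih =>
  intro V _ _ hcard hN a b x c hx
  classical
  obtain ⟨P, hP⟩ : ∃ P : Finset E, P = Finset.univ.filter (fun e => 0 < x e) := ⟨_, rfl⟩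
  let x0 : E → ℝ := fun e => if a e = b e then 0 else x e
  have hcut0 : ∀ S, cut a b x0 S = cut a b x S := by
    intro S
    unfold cut
    apply Finset.sum_congr rfl
    intro e he
    rw [Finset.mem_filter] at he
    simp [x0, Cr_ne he.2]
  have hx0 : x0 ∈ KK a b P := by
    refine ⟨⟨?_, ?_, ?_⟩, ?_, ?_⟩
    · intro e
      simp only [x0]
      split_ifs
      · exact le_rfl
      · exact hx.nonneg e
    · intro v
      rw [hcut0, hx.deg]
    · intro S hS
      rw [hcut0]
      exact hx.odd S hS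
    · intro e he
      simp [x0, he]
    · intro e he
      rw [hP, Finset.mem_filter] at he
      simp only [Finset.mem_univ, true_and, not_lt] at he
      simp only [x0]
      split_ifs
      · rfl
      · exact le_antisymm he (hx.nonneg e)
  obtain ⟨y, hy, hmin⟩ := (isCompact_KK a b P).exists_isMinOn ⟨x0, hx0⟩
    (f := fun y : E → ℝ => ∑ e, c e * y e) (by fun_prop)
  have hmin' : ∀ z ∈ KK a b P, ∑ e, c e * y e ≤ ∑ e, c e * z e := fun z hz => hmin hz
  have hyx : ∑ e, c e * y e ≤ ∑ e ∈ Finset.univ.filter (fun e => a e ≠ b e), c e * x e := by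
    refine (hmin' x0 hx0).trans (le_of_eq ?_)
    rw [Finset.sum_filter]
    apply Finset.sum_congr rfl
    intro e _
    simp only [x0]
    by_cases h : a e = b e
    · simp [h]
    · simp [h]
  have hpos : ∀ e, 0 < y e → 0 < x e := by
    intro e he
    by_contra hcon
    have : e ∉ P := by
      rw [hP, Finset.mem_filter]
      tauto
    rw [hy.2.2 e this] at he
    exact lt_irrefl _ he
  obtain ⟨M0, hM0, hM0y⟩ := exists_pm hy.1
  by_cases hc : ∑ e ∈ M0, c e ≤ ∑ e, c e * y e
  · exact ⟨M0, hM0, fun e he => hpos e (hM0y e he), hc.trans hyx⟩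
  push Not at hc
  obtain ⟨U, hU, ht, h2⟩ := exists_tight hy hmin' hM0 hM0y hc
  -- sizes
  have hcU : U.card + Uᶜ.card = N := by
    rw [← hcard]; exact Finset.card_add_card_compl U
  have hUc : Odd Uᶜ.card := by
    obtain ⟨p, hp⟩ := hU
    obtain ⟨q, hq⟩ := hN
    exact ⟨q - p - 1, by omega⟩
  have hU1 : U.card ≠ 1 := by
    intro h
    obtain ⟨v, hv⟩ := Finset.card_eq_one.1 h
    rw [hv, hM0.deg v] at h2
    omega
  have hU2 : Uᶜ.card ≠ 1 := by
    intro h
    obtain ⟨v, hv⟩ := Finset.card_eq_one.1 h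
    have h3 : M0.filter (Cr a b U) = M0.filter (Cr a b {v}) := by
      ext e
      simp only [Finset.mem_filter]
      rw [← hv, Cr_compl]
    rw [h3, hM0.deg v] at h2
    omega
  have hlt1 : U.card + 1 < N := by
    obtain ⟨p, hp⟩ := hUc
    omega
  have hlt2 : Uᶜ.card + 1 < N := by
    obtain ⟨p, hp⟩ := hU
    omega
  have hVe : Even (Fintype.card V) := by rw [hcard]; exact hN
  have ih1 := fun c' => ih (U.card + 1) hlt1 (Option {v // v ∈ U}) (by rw [Fintype.card_option, Fintype.card_coe]) hU.add_one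
    (ct U ∘ a) (ct U ∘ b) y c' (hy.1.contr hVe U hU ht)
  have ih2 := fun c' => ih (Uᶜ.card + 1) hlt2 (Option {v // v ∈ Uᶜ}) (by rw [Fintype.card_option, Fintype.card_coe]) hUc.add_one
    (ct Uᶜ ∘ a) (ct Uᶜ ∘ b) y c' (hy.1.contr hVe Uᶜ hUc (by rw [cut_compl, ht]))
  -- cheapest completion on the far side
  have hm : ∀ e, ∃ m : Finset E, Cr a b U e → 0 < y e →
      (IsPM (ct Uᶜ ∘ a) (ct Uᶜ ∘ b) m ∧ (∀ f ∈ m, 0 < y f) ∧ e ∈ m) ∧
      ∀ N', IsPM (ct Uᶜ ∘ a) (ct Uᶜ ∘ b) N' → (∀ f ∈ N', 0 < y f) → e ∈ N' →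
        ∑ f ∈ m.erase e, c f ≤ ∑ f ∈ N'.erase e, c f := by
    intro e
    by_cases he : Cr a b U e ∧ 0 < y e
    · obtain ⟨he1, he2⟩ := he
      obtain ⟨m0, hm0, hm0y, hm0c⟩ := ih2 (fun f => if f = e then -1 else 0)
      have hem : e ∈ m0 := by
        by_contra hcon
        have h3 : ∑ f ∈ m0, (if f = e then (-1 : ℝ) else 0) = 0 := by
          apply Finset.sum_eq_zero
          intro f hf
          rw [if_neg]
          rintro rfl
          exact hcon hf
        rw [h3] at hm0c
        have h4 : ∑ f ∈ Finset.univ.filter (fun f => (ct Uᶜ ∘ a) f ≠ (ct Uᶜ ∘ b) f),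
            (if f = e then (-1 : ℝ) else 0) * y f = - y e := by
          rw [Finset.sum_eq_single e]
          · simp
          · intro f _ hf
            simp [hf]
          · intro h
            exfalso
            apply h
            rw [Finset.mem_filter]
            exact ⟨Finset.mem_univ _, Cr_iff_ne (Cr_compl.2 he1)⟩
        rw [h4] at hm0c
        linarith
      obtain ⟨m, hm1, hm2⟩ := Finset.exists_min_image
        (Finset.univ.filter (fun m : Finset E => IsPM (ct Uᶜ ∘ a) (ct Uᶜ ∘ b) m ∧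
          (∀ f ∈ m, 0 < y f) ∧ e ∈ m)) (fun m => ∑ f ∈ m.erase e, c f)
        ⟨m0, by simp only [Finset.mem_filter, Finset.mem_univ, true_and]; exact ⟨hm0, hm0y, hem⟩⟩
      refine ⟨m, fun _ _ => ⟨?_, ?_⟩⟩
      · simpa only [Finset.mem_filter, Finset.mem_univ, true_and] using hm1
      · intro N' h1 h2' h3
        apply hm2
        simp only [Finset.mem_filter, Finset.mem_univ, true_and]
        exact ⟨h1, h2', h3⟩
    · exact ⟨∅, fun h1 h2' => absurd ⟨h1, h2'⟩ he⟩
  choose m hm using hm
  obtain ⟨K, hK⟩ : ∃ K : E → ℝ, ∀ e, K e = ∑ f ∈ (m e).erase e, c f := ⟨_, fun _ => rfl⟩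
  obtain ⟨c1, hc1⟩ : ∃ c1 : E → ℝ, ∀ e, c1 e = if Cr a b U e then c e + K e else c e :=
    ⟨_, fun _ => rfl⟩
  obtain ⟨c2, hc2⟩ : ∃ c2 : E → ℝ, ∀ e, c2 e = if Cr a b U e then - K e else c e :=
    ⟨_, fun _ => rfl⟩
  obtain ⟨N0, hN0, hN0y, hN0c⟩ := ih2 c2
  obtain ⟨M1, hM1, hM1y, hM1c⟩ := ih1 c1
  have hsum : ∑ e ∈ Finset.univ.filter (fun e => (ct U ∘ a) e ≠ (ct U ∘ b) e), c1 e * y e +
      ∑ e ∈ Finset.univ.filter (fun e => (ct Uᶜ ∘ a) e ≠ (ct Uᶜ ∘ b) e), c2 e * y e =
      ∑ e, c e * y e := by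
    rw [Finset.sum_filter, Finset.sum_filter, ← Finset.sum_add_distrib]
    apply Finset.sum_congr rfl
    intro e _
    by_cases hcr : Cr a b U e
    · rw [if_pos (Cr_iff_ne hcr), if_pos (Cr_iff_ne (Cr_compl.2 hcr)), hc1, hc2, if_pos hcr,
        if_pos hcr]
      ring
    · have h3 := not_Cr_iff hcr
      have h4 := not_Cr_iff (U := Uᶜ) (fun h => hcr (Cr_compl.1 h))
      rw [hc1, hc2, if_neg hcr, if_neg hcr]
      by_cases hab : a e = b e
      · rw [hy.2.1 e hab]
        simp
      · by_cases haU : a e ∈ U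
        · rw [if_pos (h3.2 ⟨haU, hab⟩), if_neg, add_zero]
          rw [h4]
          simp [haU]
        · rw [if_neg, if_pos (h4.2 ⟨Finset.mem_compl.2 haU, hab⟩), zero_add]
          rw [h3]
          simp [haU]
  -- the far side costs at least zero
  have hN0nn : 0 ≤ ∑ e ∈ N0, c2 e := by
    obtain ⟨e, heN, hec⟩ := hN0.exists_cut
    have hec' : Cr a b U e := Cr_compl.1 hec
    rw [← Finset.add_sum_erase N0 c2 heN, hc2 e, if_pos hec', hK]
    have h3 : ∑ f ∈ N0.erase e, c2 f = ∑ f ∈ N0.erase e, c f := by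
      apply Finset.sum_congr rfl
      intro f hf
      rw [Finset.mem_erase] at hf
      rw [hc2, if_neg]
      intro h
      exact hf.1 (hN0.unique_cut hf.2 heN (Cr_compl.2 h) hec)
    rw [h3]
    have := (hm e hec' (hN0y e heN)).2 N0 hN0 hN0y heN
    linarith
  obtain ⟨e, heM, hec⟩ := hM1.exists_cut
  obtain ⟨⟨hm1, hm2, hm3⟩, _⟩ := hm e hec (hM1y e heM)
  obtain ⟨hg1, hg2⟩ := glue hM1 hm1 heM hm3 hec
  refine ⟨M1 ∪ m e, hg1, ?_, ?_⟩
  · intro f hf
    rcases Finset.mem_union.1 hf with h | h
    · exact hpos f (hM1y f h)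
    · exact hpos f (hm2 f h)
  · have h3 : M1 ∪ m e = M1 ∪ (m e).erase e := by
      ext f
      simp only [Finset.mem_union, Finset.mem_erase]
      constructor
      · rintro (h | h)
        · exact Or.inl h
        · by_cases hfe : f = e
          · rw [hfe]; exact Or.inl heM
          · exact Or.inr ⟨hfe, h⟩
      · rintro (h | h)
        · exact Or.inl h
        · exact Or.inr h.2
    rw [h3, Finset.sum_union hg2, ← hK]
    have h4 : ∑ f ∈ M1, c1 f = ∑ f ∈ M1, c f + K e := by
      rw [← Finset.add_sum_erase M1 c1 heM, ← Finset.add_sum_erase M1 c heM, hc1 e, if_pos hec]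
      have : ∑ f ∈ M1.erase e, c1 f = ∑ f ∈ M1.erase e, c f := by
        apply Finset.sum_congr rfl
        intro f hf
        rw [Finset.mem_erase] at hf
        rw [hc1, if_neg]
        intro h
        exact hf.1 (hM1.unique_cut hf.2 heM h hec)
      rw [this]
      ring
    linarith

end Pool.Agent.H249R2.PM
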