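import Pool.Agent.H249R2.PM.Rank

/-! Canonical choice of a Pareto-minimal cost vector below a given cost vector, and its behaviour
when one coordinate of the cost vector changes. -/

set_option autoImplicit false
set_option linter.unusedSectionVars false

namespace Pool.Agent.H249R2.PM

variable {V E : Type} [Fintype V] [DecidableEq V] [Fintype E] [DecidableEq E]

open Classical in
/-- the minimum cost of a perfect matching -/
noncomputable def Fm (a b : E → V) (c : E → ℝ) : ℝ :=
  if h : (Finset.univ.filter (fun M : Finset E => IsPM a b M)).Nonempty then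
    (Finset.univ.filter (fun M : Finset E => IsPM a b M)).inf' h (fun M => ∑ e ∈ M, c e) else 0

theorem Fm_le {a b : E → V} {c : E → ℝ} {M : Finset E} (hM : IsPM a b M) :
    Fm a b c ≤ ∑ e ∈ M, c e := by
  classical
  have hM' : M ∈ Finset.univ.filter (fun M : Finset E => IsPM a b M) := by simp [hM]
  have h : (Finset.univ.filter (fun M : Finset E => IsPM a b M)).Nonempty := ⟨M, hM'⟩
  unfold Fm
  rw [dif_pos h]
  exact Finset.inf'_le (fun M => ∑ e ∈ M, c e) hM'

theorem exists_Fm {a b : E → V} (c : E → ℝ) (hex : ∃ M, IsPM a b M) :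
    ∃ M, IsPM a b M ∧ ∑ e ∈ M, c e = Fm a b c := by
  classical
  obtain ⟨M, hM⟩ := hex
  have hM' : M ∈ Finset.univ.filter (fun M : Finset E => IsPM a b M) := by simp [hM]
  have h : (Finset.univ.filter (fun M : Finset E => IsPM a b M)).Nonempty := ⟨M, hM'⟩
  obtain ⟨N, hN, hN'⟩ := Finset.exists_mem_eq_inf' h (fun M => ∑ e ∈ M, c e)
  refine ⟨N, by simpa using hN, ?_⟩
  unfold Fm
  rw [dif_pos h, hN']

/-- vectors below `c` for which all perfect matchings still cost at least the minimum -/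
def WW (a b : E → V) (c : E → ℝ) : Set (E → ℝ) :=
  {w | (∀ e, w e ≤ c e) ∧ ∀ M, IsPM a b M → Fm a b c ≤ ∑ e ∈ M, w e}

/-- the strictly convex strictly increasing functional -/
noncomputable def Th (w : E → ℝ) : ℝ := ∑ e, Real.exp (w e)

theorem Th_strict {w w' : E → ℝ} (h : w ≠ w') {l : ℝ} (h0 : 0 < l) (h1 : l < 1) :
    Th (fun e => (1 - l) * w e + l * w' e) < (1 - l) * Th w + l * Th w' := by
  unfold Th
  rw [Finset.mul_sum, Finset.mul_sum, ← Finset.sum_add_distrib]
  obtain ⟨e, he⟩ := Function.ne_iff.1 h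
  apply Finset.sum_lt_sum
  · intro e _
    have := convexOn_exp.2 (Set.mem_univ (w e)) (Set.mem_univ (w' e))
      (show (0 : ℝ) ≤ 1 - l by linarith) h0.le (by ring)
    simpa using this
  · refine ⟨e, Finset.mem_univ _, ?_⟩
    have := strictConvexOn_exp.2 (Set.mem_univ (w e)) (Set.mem_univ (w' e)) he
      (show (0 : ℝ) < 1 - l by linarith) h0 (by ring)
    simpa using this

theorem Th_mono {w w' : E → ℝ} (h : ∀ e, w e ≤ w' e) : Th w ≤ Th w' := by
  unfold Th
  apply Finset.sum_le_sum
  intro e _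
  exact Real.exp_le_exp.2 (h e)

/-- weights dominated by perfect matchings (dual description of the convex hull) -/
structure Wt (a b : E → V) (β : E → ℝ) : Prop where
  pos : ∀ e, 0 < β e
  hull : ∀ (w : E → ℝ) (F : ℝ), (∀ M, IsPM a b M → F ≤ ∑ e ∈ M, w e) → F ≤ ∑ e, β e * w e

theorem WW_compact {a b : E → V} {β : E → ℝ} (hβ : Wt a b β) (c : E → ℝ) :
    IsCompact (WW a b c) := by
  have hsub : WW a b c ⊆ Set.pi Set.univ (fun e => Set.Icc
      ((Fm a b c - ∑ f ∈ Finset.univ.erase e, β f * c f) / β e) (c e)) := by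
    rintro w ⟨h1, h2⟩ e _
    refine ⟨?_, h1 e⟩
    rw [div_le_iff₀ (hβ.pos e)]
    have h3 := hβ.hull w _ h2
    rw [← Finset.add_sum_erase _ _ (Finset.mem_univ e)] at h3
    have h4 : ∑ f ∈ Finset.univ.erase e, β f * w f ≤ ∑ f ∈ Finset.univ.erase e, β f * c f := by
      apply Finset.sum_le_sum
      intro f _
      exact mul_le_mul_of_nonneg_left (h1 f) (hβ.pos f).le
    linarith [mul_comm (w e) (β e)]
  apply IsCompact.of_isClosed_subset (isCompact_univ_pi fun _ => isCompact_Icc) _ hsub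
  have h : WW a b c = (⋂ e, {w : E → ℝ | w e ≤ c e}) ∩
      (⋂ M : Finset E, ⋂ _ : IsPM a b M, {w : E → ℝ | Fm a b c ≤ ∑ e ∈ M, w e}) := by
    ext w
    simp only [Set.mem_inter_iff, Set.mem_iInter]
    exact Iff.rfl
  rw [h]
  refine IsClosed.inter ?_ ?_
  · exact isClosed_iInter fun e => isClosed_le (continuous_apply e) continuous_const
  · refine isClosed_iInter fun M => isClosed_iInter fun _ =>
      isClosed_le continuous_const ?_
    fun_prop

theorem exists_sel {a b : E → V} {β : E → ℝ} (hβ : Wt a b β) (c : E → ℝ) :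
    ∃ w ∈ WW a b c, ∀ w' ∈ WW a b c, Th w ≤ Th w' := by
  have hne : (WW a b c).Nonempty := ⟨c, fun e => le_rfl, fun M hM => Fm_le hM⟩
  obtain ⟨w, hw, hmin⟩ := (WW_compact hβ c).exists_isMinOn hne (f := Th) (by
    unfold Th
    fun_prop)
  exact ⟨w, hw, fun w' hw' => hmin hw'⟩

open Classical in
/-- the canonical Pareto-minimal vector -/
noncomputable def sel (a b : E → V) (c : E → ℝ) : E → ℝ :=
  if h : ∃ w ∈ WW a b c, ∀ w' ∈ WW a b c, Th w ≤ Th w' then h.choose else c

theorem sel_mem {a b : E → V} {β : E → ℝ} (hβ : Wt a b β) (c : E → ℝ) :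
    sel a b c ∈ WW a b c := by
  unfold sel
  rw [dif_pos (exists_sel hβ c)]
  exact (exists_sel hβ c).choose_spec.1

theorem sel_min {a b : E → V} {β : E → ℝ} (hβ : Wt a b β) (c : E → ℝ) :
    ∀ w' ∈ WW a b c, Th (sel a b c) ≤ Th w' := by
  unfold sel
  rw [dif_pos (exists_sel hβ c)]
  exact (exists_sel hβ c).choose_spec.2

theorem sel_unique {a b : E → V} {β : E → ℝ} (hβ : Wt a b β) (c : E → ℝ) {w : E → ℝ}
    (hw : w ∈ WW a b c) (hle : Th w ≤ Th (sel a b c)) : w = sel a b c := by
  by_contra hne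
  have h1 := Th_strict hne (l := 1 / 2) (by norm_num) (by norm_num)
  have h2 := sel_mem hβ c
  have h3 : (fun e => (1 - 1 / 2 : ℝ) * w e + 1 / 2 * sel a b c e) ∈ WW a b c := by
    refine ⟨fun e => ?_, fun M hM => ?_⟩
    · have := hw.1 e
      have := h2.1 e
      linarith
    · rw [Finset.sum_add_distrib, ← Finset.mul_sum, ← Finset.mul_sum]
      have := hw.2 M hM
      have := h2.2 M hM
      linarith
  have h4 := sel_min hβ c _ h3
  linarith

theorem sel_pareto {a b : E → V} {β : E → ℝ} (hβ : Wt a b β) (c : E → ℝ) (w' : E → ℝ)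
    (h1 : ∀ e, w' e ≤ sel a b c e) (h2 : ∀ M, IsPM a b M → Fm a b c ≤ ∑ e ∈ M, w' e) :
    w' = sel a b c := by
  apply sel_unique hβ c ⟨fun e => (h1 e).trans ((sel_mem hβ c).1 e), h2⟩
  exact Th_mono h1

/-- invariance along coordinate lines -/
theorem sel_line {a b : E → V} {β : E → ℝ} (hβ : Wt a b β) (hex : ∃ M, IsPM a b M) (c : E → ℝ)
    (e : E) (t : ℝ) (hs : sel a b c e < c e) (ht : sel a b c e ≤ t) :
    sel a b (Function.update c e t) = sel a b c := by
  obtain ⟨w, hw⟩ : ∃ w, w = sel a b c := ⟨_, rfl⟩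
  obtain ⟨c', hc'⟩ : ∃ c', c' = Function.update c e t := ⟨_, rfl⟩
  have hwm := sel_mem hβ c
  rw [← hw] at hs ht hwm
  have hle : ∀ f, w f ≤ c' f := by
    intro f
    rw [hc']
    by_cases hf : f = e
    · subst hf
      rw [Function.update_self]
      exact ht
    · rw [Function.update_of_ne hf]
      exact hwm.1 f
  have hF : Fm a b c' = Fm a b c := by
    apply le_antisymm
    · obtain ⟨M, hM, hMc⟩ := exists_Fm c hex
      have h1 := hwm.2 M hM
      have heM : e ∉ M := by
        intro heM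
        have h2 : ∑ f ∈ M, w f < ∑ f ∈ M, c f :=
          Finset.sum_lt_sum (fun f _ => hwm.1 f) ⟨e, heM, hs⟩
        linarith
      rw [← hMc]
      refine (Fm_le hM).trans (le_of_eq ?_)
      apply Finset.sum_congr rfl
      intro f hf
      rw [hc', Function.update_of_ne]
      rintro rfl
      exact heM hf
    · obtain ⟨M, hM, hMc⟩ := exists_Fm c' hex
      rw [← hMc]
      exact (hwm.2 M hM).trans (Finset.sum_le_sum fun f _ => hle f)
  have hw' : w ∈ WW a b c' := ⟨hle, fun M hM => by rw [hF]; exact hwm.2 M hM⟩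
  have h1 := sel_min hβ c' w hw'
  rw [← hc', ← hw]
  by_contra hne
  have hne' : w ≠ sel a b c' := fun h => hne h.symm
  have h2 := sel_mem hβ c'
  obtain ⟨l, ⟨hl1, hl2⟩, hl0⟩ := (((ev_small (sel a b c' e - w e) (c e - w e) (by linarith)).and
    (ev_small 1 1 one_pos)).and self_mem_nhdsWithin).exists
  have hl0' : 0 < l := hl0
  have hl3 : l < 1 := by linarith
  have h3 : (fun f => (1 - l) * w f + l * sel a b c' f) ∈ WW a b c := by
    refine ⟨fun f => ?_, fun M hM => ?_⟩
    · dsimp only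
      by_cases hf : f = e
      · subst hf
        nlinarith
      · have h4 := hwm.1 f
        have h5 := h2.1 f
        rw [hc', Function.update_of_ne hf] at h5
        rw [← hc'] at h5
        nlinarith
    · rw [Finset.sum_add_distrib, ← Finset.mul_sum, ← Finset.mul_sum]
      have h4 := hwm.2 M hM
      have h5 := h2.2 M hM
      rw [hF] at h5
      nlinarith
  have h4 := sel_min hβ c _ h3
  have h5 := Th_strict hne' hl0' hl3
  rw [← hw] at h4
  nlinarith

theorem exists_relation (a b : E → V) (B : Finset E) (L : Finset (Finset V))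
    (h : L.card < B.card) : ∃ q : E → ℚ, q ≠ 0 ∧ (∀ e, e ∉ B → q e = 0) ∧
      ∀ T ∈ L, ∑ e, (q e : ℝ) * ci a b T e = 0 := by
  classical
  let φ : (B → ℚ) →ₗ[ℚ] (L → ℚ) :=
    { toFun := fun q T => ∑ e : B, q e * (if Cr a b T.1 e.1 then 1 else 0)
      map_add' := by
        intro p q
        ext T
        simp only [Pi.add_apply, add_mul, Finset.sum_add_distrib]
      map_smul' := by
        intro k q
        ext T
        simp only [Pi.smul_apply, smul_eq_mul, RingHom.id_apply, Finset.mul_sum, mul_assoc] }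
  have hk : LinearMap.ker φ ≠ ⊥ := by
    apply LinearMap.ker_ne_bot_of_finrank_lt
    simpa using h
  obtain ⟨q, hq, hq0⟩ := (Submodule.ne_bot_iff _).1 hk
  refine ⟨fun e => if h : e ∈ B then q ⟨e, h⟩ else 0, ?_, ?_, ?_⟩
  · intro h0
    apply hq0
    ext e
    have := congrFun h0 e.1
    simp only [e.2, dif_pos, Pi.zero_apply] at this
    simpa using this
  · intro e he
    dsimp only
    rw [dif_neg he]
  · intro T hT
    have h1 : φ q ⟨T, hT⟩ = 0 := by
      rw [LinearMap.mem_ker] at hq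
      rw [hq]
      rfl
    have h2 : ∑ e, ((if h : e ∈ B then q ⟨e, h⟩ else 0 : ℚ) : ℝ) * ci a b T e =
        ((φ q ⟨T, hT⟩ : ℚ) : ℝ) := by
      simp only [φ, LinearMap.coe_mk, AddHom.coe_mk]
      push_cast
      rw [← Finset.sum_subset (Finset.subset_univ B)]
      · rw [← Finset.sum_coe_sort B]
        apply Finset.sum_congr rfl
        intro e _
        rw [dif_pos e.2]
        unfold ci
        split_ifs <;> simp
      · intro e _ he
        rw [dif_neg he]
        simp
    rw [h2, h1]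
    simp

theorem tight_card (hV : Even (Fintype.card V)) {a b : E → V} (hl : ∀ e, a e ≠ b e)
    (hcomp : ∀ p q : V, p ≠ q → ∃ e, (a e = p ∧ b e = q) ∨ (a e = q ∧ b e = p)) (r : V)
    {x0 : E → ℝ} (hx0 : Fr a b x0) {β : E → ℝ} (hβ : Wt a b β) {c : E → ℝ}
    (hgen : ∀ q : E → ℚ, ∑ e, (q e : ℝ) * c e = 0 → q = 0) :
    (Finset.univ.filter (fun e => sel a b c e = c e)).card ≤ 2 * Fintype.card V := by
  obtain ⟨L, u, hL, hu⟩ := rank_bound hV hl hcomp r hx0 (w := sel a b c) (F := Fm a b c)
    (sel_mem hβ c).2 (sel_pareto hβ c)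
  refine le_trans ?_ hL
  by_contra hcon
  push Not at hcon
  obtain ⟨q, hq0, hqB, hqL⟩ := exists_relation a b _ L hcon
  apply hq0
  apply hgen
  have h1 : ∀ e, (q e : ℝ) * c e = (q e : ℝ) * sel a b c e := by
    intro e
    by_cases he : e ∈ Finset.univ.filter (fun e => sel a b c e = c e)
    · rw [(Finset.mem_filter.1 he).2]
    · rw [hqB e he]
      simp
  rw [Finset.sum_congr rfl (fun e _ => h1 e)]
  simp only [hu, Finset.mul_sum]
  rw [Finset.sum_comm]
  apply Finset.sum_eq_zero
  intro T hT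
  have h2 := hqL T hT
  have h3 : ∑ e, (q e : ℝ) * (u T * ci a b T e) = u T * ∑ e, (q e : ℝ) * ci a b T e := by
    rw [Finset.mul_sum]
    apply Finset.sum_congr rfl
    intro e _
    ring
  rw [h3, h2, mul_zero]

end Pool.Agent.H249R2.PM
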